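import Mathlib
import Pool.Agent.MP_1dbd31_co.Main

/-! Graphs of every order and density with large codegrees and a small degree sum. -/

open Finset
open scoped BigOperators Classical

namespace Pool.Agent.MP_1dbd31_co.h27

section Chars

/-! Signs, characters of elementary abelian 2-groups, averages over permutations fixing zero. -/

/-- The sign character of `ZMod 2`. -/
noncomputable def sg (z : ZMod 2) : ℝ := if z = 0 then 1 else -1

theorem sg_zero : sg 0 = 1 := by simp [sg]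

theorem z2 (a : ZMod 2) : a = 0 ∨ a = 1 := by revert a; decide

theorem sg_add (a b : ZMod 2) : sg (a + b) = sg a * sg b := by
  have h : (1 : ZMod 2) + 1 = 0 := by decide
  rcases z2 a with rfl | rfl <;> rcases z2 b with rfl | rfl <;> simp [sg, h]

theorem abs_sg (a : ZMod 2) : |sg a| = 1 := by
  unfold sg; split_ifs <;> simp

theorem sum_sg {V : Type} [AddCommGroup V] [Fintype V] (φ : V →+ ZMod 2) :
    ∑ y, sg (φ y) = if φ = 0 then (Fintype.card V : ℝ) else 0 := by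
  split_ifs with h
  · simp [h, sg_zero]
  · obtain ⟨y0, hy⟩ : ∃ y0, φ y0 ≠ 0 := by
      by_contra c
      push Not at c
      exact h (AddMonoidHom.ext c)
    have h1 : sg (φ y0) = -1 := by simp [sg, hy]
    have e : ∑ y, sg (φ y) = ∑ y, sg (φ (y + y0)) :=
      (Equiv.sum_comp (Equiv.addRight y0) fun y => sg (φ y)).symm
    simp only [map_add, sg_add, h1, mul_neg, mul_one, sum_neg_distrib] at e
    linarith

theorem add_eq_zero_hom {V : Type} [AddCommGroup V] (φ φ' : V →+ ZMod 2) :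
    φ + φ' = 0 ↔ φ = φ' := by
  have h : ∀ a b : ZMod 2, a + b = 0 ↔ a = b := by decide
  simp only [AddMonoidHom.ext_iff, AddMonoidHom.add_apply, AddMonoidHom.zero_apply, h]

theorem sum_sg_sg {V : Type} [AddCommGroup V] [Fintype V] (φ φ' : V →+ ZMod 2) :
    ∑ y, sg (φ y) * sg (φ' y) = if φ = φ' then (Fintype.card V : ℝ) else 0 := by
  have := sum_sg (φ + φ')
  simp only [AddMonoidHom.add_apply, sg_add, add_eq_zero_hom] at this
  exact this

/-- The slots of one level. -/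
abbrev KK (s : ℕ) : Type := Fin s → ZMod 2

variable {s : ℕ}

/-- The dot product as an additive map. -/
def dot (α : KK s) : KK s →+ ZMod 2 :=
  AddMonoidHom.mk' (fun a => α ⬝ᵥ a) fun a b => dotProduct_add α a b

theorem dot_inj {α β : KK s} : dot α = dot β ↔ α = β := by
  refine ⟨fun h => funext fun j => ?_, fun h => h ▸ rfl⟩
  have := DFunLike.congr_fun h (Pi.single j 1)
  simpa [dot] using this

theorem dot_zero : dot (0 : KK s) = 0 := by ext a; simp [dot]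

theorem dot_eq_zero {α : KK s} : dot α = 0 ↔ α = 0 := by rw [← dot_zero, dot_inj]

/-- The character of a level. -/
noncomputable def ps (α a : KK s) : ℝ := sg (dot α a)

theorem ps_comm (α a : KK s) : ps α a = ps a α := by simp [ps, dot, dotProduct_comm]

theorem ps_zero (α : KK s) : ps α 0 = 1 := by simp [ps, sg_zero]

theorem zero_ps (a : KK s) : ps 0 a = 1 := by rw [ps_comm, ps_zero]

theorem abs_ps (α a : KK s) : |ps α a| = 1 := abs_sg _

theorem sum_ps {α : KK s} (h : α ≠ 0) : ∑ a, ps α a = 0 := by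
  simp only [ps, sum_sg, dot_eq_zero, if_neg h]

theorem sum_ps_ps (α β : KK s) :
    ∑ a, ps α a * ps β a = if α = β then (Fintype.card (KK s) : ℝ) else 0 := by
  simp only [ps, sum_sg_sg, dot_inj]

/-- Unnormalised transform. -/
noncomputable def hat (f : KK s → ℝ) (α : KK s) : ℝ := ∑ a, f a * ps α a

theorem inv_hat (f : KK s → ℝ) (a : KK s) :
    f a = ∑ α, hat f α / (Fintype.card (KK s) : ℝ) * ps α a := by
  have q0 : (Fintype.card (KK s) : ℝ) ≠ 0 := by exact_mod_cast Fintype.card_ne_zero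
  have e : ∀ α, hat f α / (Fintype.card (KK s) : ℝ) * ps α a =
      ∑ b, f b / (Fintype.card (KK s) : ℝ) * (ps b α * ps a α) := fun α => by
    rw [hat, sum_div, sum_mul]
    exact sum_congr rfl fun b _ => by rw [ps_comm α b, ps_comm α a]; ring
  simp only [e]
  rw [sum_comm]
  simp only [← mul_sum, sum_ps_ps, mul_ite, mul_zero, sum_ite_eq', mem_univ, if_true]
  field_simp

theorem hat_zero (f : KK s → ℝ) : hat f 0 = ∑ a, f a := by simp [hat, zero_ps]

/-- Permutations of the slots fixing zero. -/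
abbrev G0 (s : ℕ) : Type := MulAction.stabilizer (Equiv.Perm (KK s)) (0 : KK s)

theorem g0_zero (σ : G0 s) : σ.1 0 = 0 := σ.2

/-- Average over the non-zero slots. -/
noncomputable def nz (f : KK s → ℝ) : ℝ := (∑ a, f a - f 0) / ((Fintype.card (KK s) : ℝ) - 1)

theorem swap_mem {c a b : KK s} (ha : a ≠ c) (hb : b ≠ c) : Equiv.swap a b c = c :=
  Equiv.swap_apply_of_ne_of_ne ha.symm hb.symm

theorem ex_swap (F : G0 s → ℝ) {a b : KK s} (ha : a ≠ 0) (hb : b ≠ 0) :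
    𝔼 σ : G0 s, F σ = 𝔼 σ : G0 s, F (σ * ⟨Equiv.swap a b, swap_mem ha hb⟩) :=
  (Fintype.expect_equiv (Equiv.mulRight _) _ _ fun _ => rfl).symm

theorem sum_perm (f : KK s → ℝ) (σ : G0 s) : ∑ a, f (σ.1 a) = ∑ a, f a := Equiv.sum_comp σ.1 f

theorem ex_one (hq : 1 < Fintype.card (KK s)) (f : KK s → ℝ) {a : KK s} (ha : a ≠ 0) :
    𝔼 σ : G0 s, f (σ.1 a) = nz f := by
  have q1 : (0 : ℝ) < (Fintype.card (KK s) : ℝ) - 1 := by
    have : (1 : ℝ) < Fintype.card (KK s) := by exact_mod_cast hq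
    linarith
  have e : ∀ b ∈ univ.erase (0 : KK s), 𝔼 σ : G0 s, f (σ.1 b) = 𝔼 σ : G0 s, f (σ.1 a) := by
    intro b hb
    rw [ex_swap _ ha (ne_of_mem_erase hb)]
    simp
  have e1 := sum_congr rfl e
  rw [← expect_sum_comm, sum_const, card_erase_of_mem (mem_univ _), card_univ, nsmul_eq_mul,
    Nat.cast_sub hq.le] at e1
  simp only [sum_erase_eq_sub (mem_univ _), sum_perm, g0_zero, Fintype.expect_const] at e1
  rw [nz, e1, Nat.cast_one]
  field_simp

theorem ex_two (hq : 2 < Fintype.card (KK s)) (f g : KK s → ℝ) {a b : KK s} (ha : a ≠ 0)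
    (hb : b ≠ 0) (hab : a ≠ b) : 𝔼 σ : G0 s, f (σ.1 a) * g (σ.1 b) =
      nz f * nz g - (nz (f * g) - nz f * nz g) / ((Fintype.card (KK s) : ℝ) - 2) := by
  have q2 : (2 : ℝ) < Fintype.card (KK s) := by exact_mod_cast hq
  have e : ∀ c ∈ (univ.erase (0 : KK s)).erase a, 𝔼 σ : G0 s, f (σ.1 a) * g (σ.1 c) =
      𝔼 σ : G0 s, f (σ.1 a) * g (σ.1 b) := by
    intro c hc
    rw [ex_swap _ hb (ne_of_mem_erase (mem_of_mem_erase hc))]
    simp [swap_mem hab.symm (ne_of_mem_erase hc)]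
  have e1 := sum_congr rfl e
  have m : a ∈ univ.erase (0 : KK s) := mem_erase.2 ⟨ha, mem_univ _⟩
  rw [← expect_sum_comm, sum_const, card_erase_of_mem m, card_erase_of_mem (mem_univ _),
    card_univ, nsmul_eq_mul, Nat.cast_sub (by omega), Nat.cast_sub (by omega)] at e1
  simp only [sum_erase_eq_sub m, sum_erase_eq_sub (mem_univ _), ← mul_sum, sum_perm, g0_zero,
    expect_sub_distrib, ← expect_mul] at e1
  have e2 := ex_one (by omega) (f * g) ha
  simp only [Pi.mul_apply] at e2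
  rw [ex_one (by omega) f ha, e2] at e1
  have e3 : ∑ a, g a = nz g * ((Fintype.card (KK s) : ℝ) - 1) + g 0 := by
    rw [nz, div_mul_cancel₀ _ (by linarith)]; ring
  rw [e3] at e1
  have q3 : (Fintype.card (KK s) : ℝ) - 2 ≠ 0 := by linarith
  push_cast at e1
  field_simp
  linarith

theorem ex_hat (hq : 1 < Fintype.card (KK s)) (f : KK s → ℝ) {α : KK s} (hα : α ≠ 0) :
    𝔼 σ : G0 s, hat (fun a => f (σ.1 a)) α = f 0 - nz f := by
  simp only [hat, expect_sum_comm, ← expect_mul]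
  have e : ∀ a : KK s, (𝔼 σ : G0 s, f (σ.1 a)) * ps α a =
      nz f * ps α a + if a = 0 then f 0 - nz f else 0 := fun a => by
    split_ifs with h
    · simp [h, g0_zero, ps_zero]
    · rw [ex_one hq f h, add_zero]
  simp [e, sum_add_distrib, ← mul_sum, sum_ps hα]

theorem ex_hat_hat (hq : 2 < Fintype.card (KK s)) (f g : KK s → ℝ) {α β : KK s} (hα : α ≠ 0)
    (hβ : β ≠ 0) : 𝔼 σ : G0 s, hat (fun a => f (σ.1 a)) α * hat (fun a => g (σ.1 a)) β =
      (f 0 - nz f) * (g 0 - nz g) + (if α = β then (Fintype.card (KK s) : ℝ) else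
        -(Fintype.card (KK s) / ((Fintype.card (KK s) : ℝ) - 2))) * (nz (f * g) - nz f * nz g) := by
  have q2 : (2 : ℝ) < Fintype.card (KK s) := by exact_mod_cast hq
  set q : ℝ := ((Fintype.card (KK s) : ℕ) : ℝ) with hqq
  set C := nz (f * g) - nz f * nz g with hC
  let δ : KK s → ℝ := fun a => if a = 0 then 1 else 0
  have e : ∀ a b : KK s, 𝔼 σ : G0 s, f (σ.1 a) * ps α a * (g (σ.1 b) * ps β b) =
      ((nz f + (f 0 - nz f) * δ a) * ps α a) * ((nz g + (g 0 - nz g) * δ b) * ps β b) +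
      (-(C / (q - 2))) * (((1 - δ a) * ps α a) * ((1 - δ b) * ps β b)) +
      if a = b then (C + C / (q - 2)) * ((1 - δ a) * (ps α a * ps β a)) else 0 := by
    intro a b
    have e0 : 𝔼 σ : G0 s, f (σ.1 a) * ps α a * (g (σ.1 b) * ps β b) =
        (𝔼 σ : G0 s, f (σ.1 a) * g (σ.1 b)) * (ps α a * ps β b) := by
      rw [expect_mul]; exact expect_congr rfl fun _ _ => by ring
    rw [e0]
    by_cases ha : a = 0 <;> by_cases hb : b = 0
    · simp [ha, hb, δ, g0_zero]; ring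
    · subst ha
      simp only [g0_zero, ← mul_expect, ex_one (by omega) g hb, δ, if_neg hb, if_neg (Ne.symm hb)]
      simp; ring
    · subst hb
      simp only [g0_zero, ← expect_mul, ex_one (by omega) f ha, δ, if_neg ha]
      simp; ring
    · by_cases hab : a = b
      · subst hab
        have e2 := ex_one (by omega) (f * g) ha
        simp only [Pi.mul_apply] at e2
        simp only [e2, δ, if_neg ha, if_true, hC]
        ring
      · simp only [ex_two hq f g ha hb hab, δ, if_neg ha, if_neg hb, if_neg hab, hC, hqq]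
        ring
  have d1 : ∀ (F : KK s → ℝ), ∑ a, δ a * F a = F 0 := fun F => by simp [δ]
  have s1 : ∀ {γ : KK s}, γ ≠ 0 → ∀ x y : ℝ, ∑ a, (x + y * δ a) * ps γ a = y := by
    intro γ h x y
    simp only [add_mul, sum_add_distrib, ← mul_sum, sum_ps h, mul_assoc, d1, ps_zero]; ring
  have s2 : ∀ {γ : KK s}, γ ≠ 0 → ∑ a, (1 - δ a) * ps γ a = -1 := by
    intro γ h
    simp only [sub_mul, sum_sub_distrib, one_mul, sum_ps h, d1, ps_zero]; ring
  have s3 : ∑ a, (1 - δ a) * (ps α a * ps β a) = (if α = β then q else 0) - 1 := by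
    simp only [sub_mul, sum_sub_distrib, one_mul, sum_ps_ps, d1, ps_zero, hqq]
  simp only [hat, sum_mul_sum, expect_sum_comm, e]
  simp only [sum_add_distrib, sum_ite_eq, mem_univ, if_true,
    ← mul_sum, ← sum_mul, s1 hα, s1 hβ, s2 hα, s2 hβ, s3]
  have q3 : q - 2 ≠ 0 := by linarith
  split_ifs <;> field_simp <;> ring

end Chars

section Level

/-! One level of the tree: random labels on the slots with coherent signs. -/

variable {s : ℕ}

theorem sq_ex_le {Ω : Type} [Fintype Ω] [Nonempty Ω] (X : Ω → ℝ) :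
    (𝔼 o, X o) ^ 2 ≤ 𝔼 o, X o * X o := by
  have := expect_mul_sq_le_sq_mul_sq univ X (fun _ => (1 : ℝ))
  simpa [sq] using this

theorem ex16 (a b : KK s) (F : KK s → G0 s → ℝ) :
    𝔼 o : Fin 16 × G0 s, F (if o.1 = 0 then b else a) o.2 =
      1 / 16 * (𝔼 σ, F b σ) + 15 / 16 * 𝔼 σ, F a σ := by
  rw [← univ_product_univ, expect_product' univ univ fun (c : Fin 16) σ =>
    F (if c = 0 then b else a) σ, Fintype.expect_eq_sum_div_card, Fin.sum_univ_succ]
  simp [Fin.succ_ne_zero]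
  ring

/-- A labelling of the slots: on, deep or off. -/
def Lab (A T : KK s → ℝ) : Prop :=
  ∀ a, (A a = 0 ∧ T a = 0) ∨ (A a = 1 ∧ T a = 0) ∨ (A a = 0 ∧ T a = 1)

theorem nz_mono (hq : 1 < Fintype.card (KK s)) {f g : KK s → ℝ} (h : ∀ a, f a ≤ g a) :
    nz f ≤ nz g := by
  have q1 : (1 : ℝ) < Fintype.card (KK s) := by exact_mod_cast hq
  unfold nz
  rw [← sum_erase_eq_sub (mem_univ _), ← sum_erase_eq_sub (mem_univ _)]
  exact div_le_div_of_nonneg_right (sum_le_sum fun a _ => h a) (by linarith)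

theorem nz_smul (c : ℝ) (f : KK s → ℝ) : nz (fun a => c * f a) = c * nz f := by
  simp only [nz, ← mul_sum]; ring

theorem nz_zero : nz (fun _ : KK s => (0 : ℝ)) = 0 := by simp [nz]

theorem abs_hat_le {f : KK s → ℝ} (h : ∀ a, 0 ≤ f a) (α : KK s) : |hat f α| ≤ ∑ a, f a :=
  (abs_sum_le_sum_abs _ _).trans (sum_le_sum fun a _ => by
    rw [abs_mul, abs_ps, mul_one, abs_of_nonneg (h a)])

/-- The moments of one labelling. -/
theorem moments {D : ℕ} {v v' : ℝ} (hD : 1 ≤ D) (hq : 2048 * D ^ 2 ≤ Fintype.card (KK s))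
    (w0 : 0 ≤ v') (w1 : v' ≤ 1) {A T g : KK s → ℝ} (L : Lab A T) (hg : ∀ a, g a = A a + v' * T a)
    (hT : ∑ a, T a = D) (hv : ∑ a, g a = Fintype.card (KK s) * v) (g0 : v ≤ g 0) :
    ∃ p χ ρ θ : ℝ, 0 ≤ p ∧ p ≤ 1 / D / 2000 ∧ 0 ≤ χ ∧ χ ≤ v ∧ ρ ≤ χ ∧ 1 ≤ θ ∧ θ ≤ 1001 / 1000 ∧
      (∀ α ≠ 0, 𝔼 σ : G0 s, hat (fun a => T (σ.1 a)) α = T 0 - p) ∧
      (∀ α ≠ 0, 𝔼 σ : G0 s, hat (fun a => g (σ.1 a)) α = g 0 - χ) ∧
      (∀ α ≠ 0, ∀ β ≠ 0, (T 0 - p) ^ 2 - θ * p ≤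
        𝔼 σ : G0 s, hat (fun a => T (σ.1 a)) α * hat (fun a => T (σ.1 a)) β) ∧
      (χ ≤ v' → ∀ α ≠ 0, ∀ β ≠ 0, (g 0 - χ) * (T 0 - p) - θ * (p * (v' - χ)) ≤
        𝔼 σ : G0 s, hat (fun a => g (σ.1 a)) α * hat (fun a => T (σ.1 a)) β) ∧
      (∀ α ≠ 0, ∀ β ≠ 0, α ≠ β → (g 0 - χ) ^ 2 - θ * (ρ - χ ^ 2) =
        𝔼 σ : G0 s, hat (fun a => g (σ.1 a)) α * hat (fun a => g (σ.1 a)) β) := by
  have D1 : (1 : ℝ) ≤ D := by exact_mod_cast hD
  have hq' : 2048 * (D : ℝ) ^ 2 ≤ Fintype.card (KK s) := by exact_mod_cast hq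
  have hq2 : 2 < Fintype.card (KK s) := by
    have := Nat.one_le_pow 2 D hD
    omega
  have D2 : (1 : ℝ) ≤ D ^ 2 := one_le_pow₀ D1
  set q : ℝ := ((Fintype.card (KK s) : ℕ) : ℝ) with hqq
  have q1 : 2048 ≤ q := by linarith
  have T0 : ∀ a, 0 ≤ T a := fun a => by rcases L a with h | h | h <;> simp [h.2]
  have gg : ∀ a, 0 ≤ g a ∧ g a * g a ≤ g a ∧ g a * T a = v' * T a ∧ T a * T a = T a := fun a => by
    rw [hg]
    rcases L a with h | h | h <;> simp only [h.1, h.2] <;> refine ⟨?_, ?_, ?_, ?_⟩ <;>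
      linarith only [w0, mul_le_mul_of_nonneg_left w1 w0]
  have p0 : 0 ≤ nz T := nz_zero (s := s) ▸ nz_mono (by omega) T0
  have p1 : nz T ≤ 1 / D / 2000 := by
    rw [nz, hT, div_le_iff₀ (by linarith)]
    have : (D : ℝ) = 1 / D / 2000 * (2000 * D ^ 2) := by field_simp
    have h2 : 1 / (D : ℝ) / 2000 * (2000 * D ^ 2) ≤ 1 / D / 2000 * (q - 1) :=
      mul_le_mul_of_nonneg_left (by linarith) (by positivity)
    linarith [T0 0]
  have p2 : nz T ≤ 1 := p1.trans (by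
    have : 1 / (D : ℝ) ≤ 1 := (div_le_one (by linarith)).2 D1
    linarith)
  have c0 : 0 ≤ nz g := nz_zero (s := s) ▸ nz_mono (by omega) fun a => (gg a).1
  have c1 : nz g ≤ v := by
    rw [nz, hv, div_le_iff₀ (by linarith)]; linarith
  have eTT : nz (T * T) = nz T := congrArg nz (funext fun a => (gg a).2.2.2)
  have egT : nz (g * T) = v' * nz T := by
    rw [← nz_smul]; exact congrArg nz (funext fun a => (gg a).2.2.1)
  have t1 : 1 ≤ q / (q - 2) := (one_le_div (by linarith)).2 (by linarith)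
  refine ⟨nz T, nz g, nz (g * g), q / (q - 2), p0, p1, c0, c1,
    nz_mono (by omega) fun a => (gg a).2.1, t1, (div_le_iff₀ (by linarith)).2 (by linarith),
    fun α h => ex_hat (by omega) T h, fun α h => ex_hat (by omega) g h,
    fun α ha β hb => ?_, fun hc α ha β hb => ?_, fun α ha β hb hab => ?_⟩
  · rw [ex_hat_hat hq2 T T ha hb, eTT]
    have a1 : 0 ≤ nz T - nz T * nz T := sub_nonneg.2 (mul_le_of_le_one_left p0 p2)
    split_ifs
    · linarith [mul_nonneg (show 0 ≤ q by linarith) a1, mul_nonneg (zero_le_one.trans t1) p0]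
    · linarith [mul_nonneg (zero_le_one.trans t1) (mul_self_nonneg (nz T))]
  · rw [ex_hat_hat hq2 g T ha hb, egT]
    have a1 : 0 ≤ nz T * (v' - nz g) := mul_nonneg p0 (by linarith)
    split_ifs
    · linarith [mul_nonneg (show 0 ≤ q by linarith) a1, mul_nonneg (zero_le_one.trans t1) a1]
    · exact le_of_eq (by ring)
  · rw [ex_hat_hat hq2 g g ha hb, if_neg hab]; ring

theorem num3 {δ κ t p1 p2 θ1 θ2 x y : ℝ} (δ1 : δ ≤ 1) (κ1 : κ ≤ 1 / 64) (κ0 : 0 < κ)
    (a1 : 0 ≤ p1) (a2 : p1 ≤ δ / 2000) (a7 : θ1 ≤ 1001 / 1000) (b1 : 0 ≤ p2) (b2 : p2 ≤ δ / 2000)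
    (b7 : θ2 ≤ 1001 / 1000) (x1 : (1 - p2) ^ 2 - θ2 * p2 ≤ x) (x2 : (t - p1) ^ 2 - θ1 * p1 ≤ y) :
    κ * κ ≤ 1 / 16 * x + 15 / 16 * y := by
  linarith [mul_self_le_mul_self κ0.le κ1, sq_nonneg (t - p1), sq_nonneg p2,
    mul_le_mul_of_nonneg_right a7 a1,
    mul_le_mul_of_nonneg_right b7 b1]

theorem num4 {δ κ v v' p1 p2 θ1 θ2 χ1 χ2 x y : ℝ} (δ1 : δ ≤ 1) (hκ : κ = δ / 64) (κ0 : 0 < κ)
    (w1 : v' ≤ 1) (m : v + δ ≤ v') (a1 : 0 ≤ p1) (a2 : p1 ≤ δ / 2000) (a3 : 0 ≤ χ1) (a4 : χ1 ≤ v)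
    (a7 : θ1 ≤ 1001 / 1000) (b1 : 0 ≤ p2) (b2 : p2 ≤ δ / 2000) (b4 : χ2 ≤ v)
    (b7 : θ2 ≤ 1001 / 1000) (x1 : (v' - χ2) * (1 - p2) - θ2 * (p2 * (v' - χ2)) ≤ x)
    (x2 : (1 - χ1) * (0 - p1) - θ1 * (p1 * (v' - χ1)) ≤ y) :
    κ * κ ≤ 1 / 16 * x + 15 / 16 * y := by
  have y1 : θ2 * p2 ≤ 1 / 1000 := by linarith [mul_le_mul_of_nonneg_right b7 b1]
  have y2 : δ * (99 / 100) ≤ (v' - χ2) * (1 - p2 - θ2 * p2) :=
    mul_le_mul (by linarith) (by linarith) (by norm_num) (by linarith)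
  have y3 : p1 * (v' - χ1) ≤ p1 := mul_le_of_le_one_right a1 (by linarith)
  have y4 : θ1 * (p1 * (v' - χ1)) ≤ 1001 / 1000 * p1 :=
    mul_le_mul a7 y3 (mul_nonneg a1 (by linarith)) (by norm_num)
  have y5 : κ * κ ≤ κ := mul_le_of_le_one_left κ0.le (by linarith)
  linarith [mul_nonneg a1 a3]

theorem num5 {κ v v' ρ1 ρ2 θ1 θ2 χ1 χ2 : ℝ} (κ1 : κ ≤ 1 / 64) (κ0 : 0 < κ) (v1 : v ≤ 45 / 100)
    (a3 : 0 ≤ χ1) (a4 : χ1 ≤ v) (a5 : ρ1 ≤ χ1) (a6 : 1 ≤ θ1) (a7 : θ1 ≤ 1001 / 1000)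
    (b5 : ρ2 ≤ χ2) (b6 : 1 ≤ θ2) (b7 : θ2 ≤ 1001 / 1000) :
    κ * κ ≤ 1 / 16 * ((v' - χ2) ^ 2 - θ2 * (ρ2 - χ2 ^ 2)) +
      15 / 16 * ((1 - χ1) ^ 2 - θ1 * (ρ1 - χ1 ^ 2)) := by
  have y1 : θ2 * (ρ2 - χ2 ^ 2) ≤ 1001 / 1000 * (1 / 4) := by
    have : ρ2 - χ2 ^ 2 ≤ 1 / 4 := by linarith [sq_nonneg (χ2 - 1 / 2)]
    linarith [mul_le_mul_of_nonneg_left this (zero_le_one.trans b6)]
  have y2 : θ1 * (ρ1 - χ1 ^ 2) ≤ 1001 / 1000 * (χ1 * (1 - χ1)) := by
    have : 0 ≤ χ1 * (1 - χ1) := mul_nonneg a3 (by linarith)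
    linarith [mul_le_mul_of_nonneg_left a5 (zero_le_one.trans a6),
      mul_le_mul_of_nonneg_right a7 this]
  have y3 : 55 / 100 * (99 / 1000) ≤ (1 - χ1) * (1 - χ1 - 1001 / 1000 * χ1) :=
    mul_le_mul (by linarith) (by linarith) (by norm_num) (by linarith)
  linarith [sq_nonneg (v' - χ2), mul_self_le_mul_self κ0.le κ1]

theorem level {D i : ℕ} {v v' : ℝ} (hD : 1 ≤ D) (hq : 2048 * D ^ 2 ≤ Fintype.card (KK s))
    (hv : Fintype.card (KK s) * v = i + D * v') (v1 : v ≤ 45 / 100) (w0 : 0 ≤ v') (w1 : v' ≤ 1)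
    (hi : i = 0 ∨ v + 1 / D ≤ v') {κ : ℝ} (hκ : κ = 1 / D / 64) :
    ∃ (A T g : Fin 16 × G0 s → KK s → ℝ) (c : ℝ), 0 ≤ c ∧ (∀ o, Lab (A o) (T o)) ∧
      (∀ o a, g o a = A o a + v' * T o a) ∧ (∀ o, hat (g o) 0 = Fintype.card (KK s) * v) ∧
      (∀ α, κ ≤ 𝔼 o, hat (T o) α) ∧ (∀ α ≠ 0, c ≤ 𝔼 o, hat (g o) α) ∧
      (∀ α β, κ * κ ≤ 𝔼 o, hat (T o) α * hat (T o) β) ∧
      (∀ α ≠ 0, ∀ β, c * κ ≤ 𝔼 o, hat (g o) α * hat (T o) β) ∧
      (∀ α ≠ 0, ∀ β ≠ 0, c * c ≤ 𝔼 o, hat (g o) α * hat (g o) β) ∧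
      (∀ o α, |hat (T o) α| ≤ D) ∧
      (∀ o α, |hat (g o) α| ≤ Fintype.card (KK s) / κ * c) := by
  have D1 : (1 : ℝ) ≤ D := by exact_mod_cast hD
  have hq' : 2048 * (D : ℝ) ^ 2 ≤ Fintype.card (KK s) := by exact_mod_cast hq
  have δ0 : 0 < 1 / (D : ℝ) := by positivity
  have δ1 : 1 / (D : ℝ) ≤ 1 := (div_le_one (by linarith)).2 D1
  have κ0 : 0 < κ := by linarith
  have κ1 : κ ≤ 1 / 64 := by linarith
  have κD : κ ≤ D := by linarith
  have D0 : (0 : ℝ) ≤ D := by linarith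
  have qD : 2048 * (D : ℝ) ≤ Fintype.card (KK s) := by
    linarith [mul_le_mul_of_nonneg_left D1 D0]
  have iD : i + D ≤ Fintype.card (KK s) := by
    have a : 0 ≤ (D : ℝ) * v' := by positivity
    have b : (Fintype.card (KK s) : ℝ) * v ≤ Fintype.card (KK s) * (45 / 100) :=
      mul_le_mul_of_nonneg_left v1 (by linarith)
    exact_mod_cast (by linarith : (i : ℝ) + D ≤ Fintype.card (KK s))
  obtain ⟨U, -, hU⟩ := exists_subset_card_eq (s := (univ : Finset (KK s))) iD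
  obtain ⟨A0, hA, cA⟩ := exists_subset_card_eq (s := U) (n := i) (by omega)
  have cT : (U \ A0).card = D := by rw [card_sdiff_of_subset hA]; omega
  obtain ⟨b, hb⟩ : (U \ A0).Nonempty := card_pos.1 (by omega)
  obtain ⟨a, ha⟩ : ∃ a : KK s, (i = 0 ∧ a = b) ∨ (a ∈ A0 ∧ v + 1 / D ≤ v') := by
    by_cases h : i = 0
    · exact ⟨b, Or.inl ⟨h, rfl⟩⟩
    · obtain ⟨a, ha⟩ : A0.Nonempty := card_pos.1 (by omega)
      exact ⟨a, Or.inr ⟨ha, hi.resolve_left h⟩⟩
  let Af : KK s → KK s → ℝ := fun z x => if Equiv.swap 0 z x ∈ A0 then 1 else 0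
  let Tf : KK s → KK s → ℝ := fun z x => if Equiv.swap 0 z x ∈ U \ A0 then 1 else 0
  let gf : KK s → KK s → ℝ := fun z x => Af z x + v' * Tf z x
  have L : ∀ z, Lab (Af z) (Tf z) := fun z x => by
    simp only [Af, Tf, mem_sdiff]
    by_cases h1 : Equiv.swap 0 z x ∈ A0 <;> by_cases h2 : Equiv.swap 0 z x ∈ U <;> simp [h1, h2]
  have sA : ∀ z, ∑ x, Af z x = i := fun z => by
    rw [Equiv.sum_comp (Equiv.swap 0 z) fun y => if y ∈ A0 then (1 : ℝ) else 0]; simp [cA]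
  have sT : ∀ z, ∑ x, Tf z x = D := fun z => by
    rw [Equiv.sum_comp (Equiv.swap 0 z) fun y => if y ∈ U \ A0 then (1 : ℝ) else 0, ← cT]
    simp only [sum_boole, filter_mem_eq_inter, univ_inter]
  have sg' : ∀ z, ∑ x, gf z x = Fintype.card (KK s) * v := fun z => by
    simp only [gf, sum_add_distrib, ← mul_sum, sA, sT, hv]; ring
  have Tb : Tf b 0 = 1 := by simp only [Tf, Equiv.swap_apply_left, if_pos hb]
  have gb : gf b 0 = v' := by
    simp only [gf, Af, Tb, Equiv.swap_apply_left, if_neg (mem_sdiff.1 hb).2]; ring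
  have vv : v ≤ v' := by
    rcases hi with h | h
    · rw [h] at hv
      by_contra c
      have : (D : ℝ) * v' ≤ Fintype.card (KK s) * v' := mul_le_mul_of_nonneg_right (by linarith) w0
      have := mul_lt_mul_of_pos_left (not_le.1 c) (show (0 : ℝ) < Fintype.card (KK s) by linarith)
      push_cast at hv
      linarith
    · linarith
  have ga : v ≤ gf a 0 := by
    rcases ha with h | h
    · rw [h.2, gb]; exact vv
    · have : 0 ≤ v' * Tf a 0 := mul_nonneg w0 (by simp only [Tf]; split_ifs <;> simp)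
      simp only [gf, Af, Equiv.swap_apply_left, if_pos h.1]
      linarith
  obtain ⟨p2, χ2, ρ2, θ2, b1, b2, b3, b4, b5, b6, b7, B1, B2, B3, B4, B5⟩ :=
    moments hD hq w0 w1 (L b) (g := gf b) (fun _ => rfl) (sT b) (sg' b) (gb ▸ vv)
  obtain ⟨p1, χ1, ρ1, θ1, a1, a2, a3, a4, a5, a6, a7, A1, A2, A3, A4, A5⟩ :=
    moments hD hq w0 w1 (L a) (g := gf a) (fun _ => rfl) (sT a) (sg' a) ga
  have Ta : 0 ≤ Tf a 0 := by simp only [Tf]; split_ifs <;> simp
  let T : Fin 16 × G0 s → KK s → ℝ := fun o x => Tf (if o.1 = 0 then b else a) (o.2.1 x)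
  let g : Fin 16 × G0 s → KK s → ℝ := fun o x => gf (if o.1 = 0 then b else a) (o.2.1 x)
  have T0 : ∀ o, hat (T o) 0 = D := fun o =>
    (hat_zero _).trans ((sum_perm _ _).trans (sT _))
  have T1 : ∀ o α, |hat (T o) α| ≤ D := fun o α => by
    rw [← T0 o, hat_zero]
    exact abs_hat_le (fun x => by simp only [T, Tf]; split_ifs <;> simp) α
  have H1 : ∀ α, κ ≤ 𝔼 o, hat (T o) α := fun α => by
    by_cases h : α = 0
    · simp only [h, T0, Fintype.expect_const]; linarith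
    · rw [ex16 a b fun z σ => hat (fun x => Tf z (σ.1 x)) α, B1 α h, A1 α h, Tb]
      linarith
  have H3 : ∀ α β, κ * κ ≤ 𝔼 o, hat (T o) α * hat (T o) β := fun α β => by
    by_cases h : α = 0
    · simp only [h, T0, ← mul_expect]
      exact mul_le_mul κD (H1 β) κ0.le D0
    by_cases h' : β = 0
    · simp only [h', T0, ← expect_mul]
      exact mul_le_mul (H1 α) κD κ0.le (κ0.le.trans (H1 α))
    rw [ex16 a b fun z σ => hat (fun x => Tf z (σ.1 x)) α * hat (fun x => Tf z (σ.1 x)) β]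
    exact num3 δ1 κ1 κ0 a1 a2 a7 b1 b2 b7 (Tb ▸ B3 α h β h') (A3 α h β h')
  have G0' : ∀ o, hat (g o) 0 = Fintype.card (KK s) * v := fun o =>
    (hat_zero _).trans ((sum_perm _ _).trans (sg' _))
  rcases ha with ha | ha
  · have A00 : A0 = ∅ := card_eq_zero.1 (cA.trans ha.1)
    have e : ∀ o α, hat (g o) α = v' * hat (T o) α := fun o α => by
      simp only [hat, g, gf, T, Af, A00, notMem_empty, if_false, zero_add, mul_sum, mul_assoc]
    refine ⟨fun o x => Af (if o.1 = 0 then b else a) (o.2.1 x), T, g, v' * κ, by positivity,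
      fun o x => L _ _, fun _ _ => rfl, G0', H1, fun α _ => ?_, H3, fun α _ β => ?_,
      fun α _ β _ => ?_, T1, fun o α => ?_⟩
    · simp only [e, ← mul_expect]
      exact mul_le_mul_of_nonneg_left (H1 α) w0
    · simp only [e, mul_assoc, ← mul_expect]
      exact mul_le_mul_of_nonneg_left (H3 α β) w0
    · have e2 : ∀ o, v' * hat (T o) α * (v' * hat (T o) β) =
          v' * v' * (hat (T o) α * hat (T o) β) := fun o => by ring
      simp only [e, e2, ← mul_expect]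
      exact le_trans (le_of_eq (by ring)) (mul_le_mul_of_nonneg_left (H3 α β) (mul_self_nonneg v'))
    · rw [e, abs_mul, abs_of_nonneg w0]
      have : (Fintype.card (KK s) : ℝ) / κ * (v' * κ) = v' * Fintype.card (KK s) := by field_simp
      rw [this]
      exact mul_le_mul_of_nonneg_left (by linarith [T1 o α]) w0
  · have Ta0 : Tf a 0 = 0 := by simp [Tf, ha.1]
    have ga1 : gf a 0 = 1 := by simp [gf, Af, Ta0, ha.1]
    have m := ha.2
    have H2 : ∀ α ≠ 0, κ ≤ 𝔼 o, hat (g o) α := fun α h => by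
      rw [ex16 a b fun z σ => hat (fun x => gf z (σ.1 x)) α, B2 α h, A2 α h, gb, ga1]
      linarith
    refine ⟨fun o x => Af (if o.1 = 0 then b else a) (o.2.1 x), T, g, κ, κ0.le,
      fun o x => L _ _, fun _ _ => rfl, G0', H1, H2, H3, fun α h β => ?_,
      fun α h β h' => ?_, T1, fun o α => ?_⟩
    · by_cases h' : β = 0
      · simp only [h', T0, ← expect_mul]
        exact mul_le_mul (H2 α h) κD κ0.le (κ0.le.trans (H2 α h))
      rw [ex16 a b fun z σ => hat (fun x => gf z (σ.1 x)) α * hat (fun x => Tf z (σ.1 x)) β]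
      have x1 := B4 (by linarith) α h β h'
      have x2 := A4 (by linarith) α h β h'
      rw [Tb, gb] at x1
      rw [Ta0, ga1] at x2
      exact num4 δ1 hκ κ0 w1 m a1 a2 a3 a4 a7 b1 b2 b4 b7 x1 x2
    · by_cases hab : α = β
      · subst hab
        exact (mul_self_le_mul_self κ0.le (H2 α h)).trans
          ((sq _).symm.le.trans (sq_ex_le fun o => hat (g o) α))
      rw [ex16 a b fun z σ => hat (fun x => gf z (σ.1 x)) α * hat (fun x => gf z (σ.1 x)) β,
        ← B5 α h β h' hab, ← A5 α h β h' hab, gb, ga1]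
      exact num5 κ1 κ0 v1 a3 a4 a5 a6 a7 b5 b6 b7
    · rw [div_mul_cancel₀ _ κ0.ne']
      refine (abs_hat_le (fun x => ?_) α).trans ?_
      · simp only [g, gf, Af, Tf]; split_ifs <;> simp [w0, add_nonneg]
      · rw [← hat_zero, G0']
        exact mul_le_of_le_one_right (by linarith) (by linarith)

end Level

section Tree

/-! Random decision trees with a prescribed density and coherent coefficients. -/

/-- A random zero-one function with an expansion whose coefficients have coherent signs. -/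
structure IsPack {E Ω Ξ : Type} [AddCommGroup E] [Fintype Ω] [Fintype Ξ] (h : Ω → E → ℝ)
    (φ : Ξ → E →+ ZMod 2) (c : Ω → Ξ → ℝ) (m : Ξ → ℝ) (v R : ℝ) : Prop where
  two : ∀ o x, h o x = 0 ∨ h o x = 1
  ne : ∀ ξ, φ ξ ≠ 0
  exp : ∀ o x, h o x = v + ∑ ξ, c o ξ * sg (φ ξ x)
  m0 : ∀ ξ, 0 ≤ m ξ
  e1 : ∀ ξ, m ξ ≤ 𝔼 o, c o ξ
  e2 : ∀ ξ η, m ξ * m η ≤ 𝔼 o, c o ξ * c o η
  bd : ∀ o ξ, |c o ξ| ≤ R * m ξ

/-- Existence of such a function. -/
def HasPack (E : Type) [AddCommGroup E] (v R : ℝ) : Prop :=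
  ∃ (Ω Ξ : Type) (_ : Fintype Ω) (_ : Nonempty Ω) (_ : Fintype Ξ) (h : Ω → E → ℝ)
    (φ : Ξ → E →+ ZMod 2) (c : Ω → Ξ → ℝ) (m : Ξ → ℝ), IsPack h φ c m v R

theorem HasPack.const (E : Type) [AddCommGroup E] {v : ℝ} (hv : v = 0 ∨ v = 1) (R : ℝ) :
    HasPack E v R :=
  ⟨Unit, Empty, inferInstance, inferInstance, inferInstance, fun _ _ => v, Empty.elim,
    fun _ => Empty.elim, Empty.elim, fun _ _ => hv, fun ξ => ξ.elim, fun _ _ => by simp,
    fun ξ => ξ.elim, fun ξ => ξ.elim, fun ξ => ξ.elim, fun _ ξ => ξ.elim⟩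

theorem HasPack.mono {E : Type} [AddCommGroup E] {v R R' : ℝ} (H : HasPack E v R) (h : R ≤ R') :
    HasPack E v R' := by
  obtain ⟨Ω, Ξ, i1, i2, i3, f, φ, c, m, P⟩ := H
  exact ⟨Ω, Ξ, i1, i2, i3, f, φ, c, m, P.two, P.ne, P.exp, P.m0, P.e1, P.e2,
    fun o ξ => (P.bd o ξ).trans (mul_le_mul_of_nonneg_right h (P.m0 ξ))⟩

theorem ex_prod {Ω Ω' : Type} [Fintype Ω] [Fintype Ω'] (X : Ω → ℝ) (Y : Ω' → ℝ) :
    𝔼 o : Ω × Ω', X o.1 * Y o.2 = (𝔼 o, X o) * 𝔼 o, Y o := by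
  rw [Fintype.expect_mul_expect, ← univ_product_univ, expect_product' univ univ fun a b => X a * Y b]

variable {s : ℕ}

theorem step {E E' : Type} [AddCommGroup E] [AddCommGroup E'] (ρ : E →+ KK s) (ρ' : E →+ E')
    (hρ : ∀ a y, ∃ x, ρ x = a ∧ ρ' x = y) {D i : ℕ} {v v' R R' : ℝ} (hD : 1 ≤ D)
    (hq : 2048 * D ^ 2 ≤ Fintype.card (KK s)) (hv : Fintype.card (KK s) * v = i + D * v')
    (v1 : v ≤ 45 / 100) (w0 : 0 ≤ v') (w1 : v' ≤ 1) (hi : i = 0 ∨ v + 1 / D ≤ v')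
    (H : HasPack E' v' R') (h1 : 64 * D * Fintype.card (KK s) ≤ R) (h2 : 64 * D ^ 2 * R' ≤ R) :
    HasPack E v R := by
  obtain ⟨Ω, Ξ, i1, i2, i3, f, φ, c, m, P⟩ := H
  obtain ⟨A, T, g, c', c0, L, hg, g0, H1, H2, H3, H4, H5, T1, G1⟩ :=
    level hD hq hv v1 w0 w1 hi rfl
  have D1 : (0 : ℝ) < D := by exact_mod_cast hD
  have q0 : (0 : ℝ) < Fintype.card (KK s) := by exact_mod_cast Fintype.card_pos
  set q : ℝ := ((Fintype.card (KK s) : ℕ) : ℝ) with hqq
  set κ : ℝ := 1 / D / 64 with hκ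
  have κ0 : 0 < κ := by positivity
  have dv : ∀ {x y : ℝ}, x ≤ y → ∀ z : ℝ, 0 ≤ z → x * z ≤ y * z :=
    fun h _ hz => mul_le_mul_of_nonneg_right h hz
  refine ⟨(Fin 16 × G0 s) × Ω, {α : KK s // α ≠ 0} ⊕ (KK s × Ξ), inferInstance, inferInstance,
    inferInstance, fun o x => A o.1 (ρ x) + T o.1 (ρ x) * f o.2 (ρ' x),
    Sum.elim (fun α => (dot α.1).comp ρ) fun p => (dot p.1).comp ρ + (φ p.2).comp ρ',
    fun o => Sum.elim (fun α => hat (g o.1) α.1 / q) fun p => hat (T o.1) p.1 / q * c o.2 p.2,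
    Sum.elim (fun _ => c' / q) fun p => κ / q * m p.2, fun o x => ?_, ?_, fun o x => ?_, ?_, ?_,
    ?_, ?_⟩
  · rcases L o.1 (ρ x) with h | h | h <;> simp only [h.1, h.2] <;> simp [P.two]
  · rintro (α | p) h
    · refine α.2 (dot_eq_zero.1 (AddMonoidHom.ext fun a => ?_))
      obtain ⟨x, rfl, -⟩ := hρ a 0
      exact DFunLike.congr_fun h x
    · refine P.ne p.2 (AddMonoidHom.ext fun y => ?_)
      obtain ⟨x, hx, rfl⟩ := hρ 0 y
      simpa [hx] using DFunLike.congr_fun h x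
  · have e1 := inv_hat (g o.1) (ρ x)
    rw [Fintype.sum_eq_add_sum_subtype_ne _ 0, g0, zero_ps, hg] at e1
    have e2 := inv_hat (T o.1) (ρ x)
    have e3 : ∑ p : KK s × Ξ, hat (T o.1) p.1 / q * c o.2 p.2 *
        sg (dot p.1 (ρ x) + φ p.2 (ρ' x)) = T o.1 (ρ x) * ∑ ξ, c o.2 ξ * sg (φ ξ (ρ' x)) := by
      rw [e2, sum_mul_sum, Fintype.sum_prod_type]
      exact sum_congr rfl fun α _ => sum_congr rfl fun ξ _ => by rw [sg_add, ps]; ring
    have e4 : q * v / q * 1 = v := by field_simp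
    simp only [Fintype.sum_sum_type, Sum.elim_inl, Sum.elim_inr, AddMonoidHom.add_apply,
      AddMonoidHom.comp_apply, e3, P.exp]
    simp only [ps] at e1
    linarith
  · rintro (α | p)
    · exact div_nonneg c0 q0.le
    · exact mul_nonneg (by positivity) (P.m0 _)
  · rintro (α | p)
    · have := ex_prod (fun o => hat (g o) α.1 / q) fun _ : Ω => (1 : ℝ)
      simp only [mul_one, Fintype.expect_const, ← expect_div] at this
      simp only [Sum.elim_inl, ← expect_div, this]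
      exact div_le_div_of_nonneg_right (H2 _ α.2) q0.le
    · simp only [Sum.elim_inr]
      rw [ex_prod (fun o => hat (T o) p.1 / q) fun o => c o p.2, ← expect_div]
      exact mul_le_mul (div_le_div_of_nonneg_right (H1 _) q0.le) (P.e1 _) (P.m0 _)
        (div_nonneg (κ0.le.trans (H1 _)) q0.le)
  · have key : ∀ (X : Fin 16 × G0 s → ℝ) (Y : Ω → ℝ) {x y : ℝ}, 0 ≤ x → 0 ≤ y → x ≤ 𝔼 o, X o →
        y ≤ 𝔼 o, Y o → x * y / q / q ≤ 𝔼 o : (Fin 16 × G0 s) × Ω, X o.1 * Y o.2 / q / q := by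
      intro X Y x y x0 y0 hx hy
      rw [← expect_div, ← expect_div, ex_prod]
      gcongr
      exact x0.trans hx
    rintro (α | p) (β | r) <;> simp only [Sum.elim_inl, Sum.elim_inr]
    · convert key _ (fun _ => 1) (mul_self_nonneg _) zero_le_one (H5 _ α.2 _ β.2) (by simp) using 1
      · ring
      · exact expect_congr rfl fun _ _ => by ring
    · convert key _ _ (mul_nonneg c0 κ0.le) (P.m0 r.2) (H4 _ α.2 r.1) (P.e1 r.2) using 1
      · ring
      · exact expect_congr rfl fun _ _ => by ring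
    · convert key _ _ (mul_nonneg c0 κ0.le) (P.m0 p.2) (H4 _ β.2 p.1) (P.e1 p.2) using 1
      · ring
      · exact expect_congr rfl fun _ _ => by ring
    · convert key _ _ (mul_self_nonneg _) (mul_nonneg (P.m0 p.2) (P.m0 r.2)) (H3 p.1 r.1)
        (P.e2 p.2 r.2) using 1
      · ring
      · exact expect_congr rfl fun _ _ => by ring
  · rintro o (α | p) <;> simp only [Sum.elim_inl, Sum.elim_inr]
    · rw [abs_div, abs_of_pos q0, ← mul_div_assoc]
      refine div_le_div_of_nonneg_right ((G1 _ _).trans (dv (le_trans (le_of_eq ?_) h1) _ c0)) q0.le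
      rw [hκ]; field_simp
    · rw [abs_mul, abs_div, abs_of_pos q0]
      refine (mul_le_mul (div_le_div_of_nonneg_right (T1 _ _) q0.le) (P.bd _ _) (abs_nonneg _)
        (by positivity)).trans (le_trans (le_of_eq ?_)
          (dv h2 _ (mul_nonneg (by positivity) (P.m0 p.2))))
      rw [hκ]; field_simp

theorem tree {D : ℕ} (hD : 1 ≤ D) (hq : 2048 * D ^ 2 ≤ Fintype.card (KK s)) (d : ℕ) :
    ∀ w : ℝ, 0 ≤ w → w ≤ 44 / 100 - 3 * d / D → ∃ v, w ≤ v ∧
      v ≤ w + (D / Fintype.card (KK s) : ℝ) ^ d ∧ v ≤ 1 ∧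
      HasPack (Fin d → KK s) v ((64 * D ^ 2) ^ d * Fintype.card (KK s)) := by
  have D1 : (1 : ℝ) ≤ D := by exact_mod_cast hD
  have hq' : 2048 * (D : ℝ) ^ 2 ≤ Fintype.card (KK s) := by exact_mod_cast hq
  set q : ℝ := ((Fintype.card (KK s) : ℕ) : ℝ) with hqq
  have D2 : (1 : ℝ) ≤ D ^ 2 := one_le_pow₀ D1
  have q0 : 0 < q := by linarith
  have r0 : 0 ≤ D / q := by positivity
  have δ1 : 1 / (D : ℝ) ≤ 1 := (div_le_one (by linarith)).2 D1
  have δ0 : 0 < 1 / (D : ℝ) := by positivity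
  have r1 : D / q ≤ 1 / D / 2048 := by
    rw [div_le_iff₀ q0]
    have : (D : ℝ) = 1 / D / 2048 * (2048 * D ^ 2) := by field_simp
    exact this.le.trans (mul_le_mul_of_nonneg_left hq' (by positivity))
  induction d with
  | zero =>
    intro w w0 w1
    simp only [Nat.cast_zero, mul_zero, zero_div, sub_zero] at w1
    exact ⟨1, by linarith, by simpa using w0, le_rfl, HasPack.const _ (Or.inr rfl) _⟩
  | succ d ih =>
    intro w w0 w1
    have e3 : 3 * ((d + 1 : ℕ) : ℝ) / D = 3 * d / D + 3 * (1 / D) := by push_cast; ring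
    have d0 : 0 ≤ 3 * (d : ℝ) / D := by positivity
    obtain ⟨i, w', h1, h2, h3, h4⟩ : ∃ (i : ℕ) (w' : ℝ), q * w = i + D * w' ∧ 0 ≤ w' ∧
        w' ≤ w + 3 * (1 / D) ∧ (i = 0 ∨ w + 2 * (1 / D) ≤ w') := by
      have eD : ∀ x : ℝ, D * (w + x * (1 / D)) = D * w + x := fun x => by field_simp
      by_cases c : 3 ≤ q * w - D * w
      · have f1 := Nat.floor_le (show 0 ≤ q * w - D * w - 2 by linarith)
        have f2 := Nat.lt_floor_add_one (q * w - D * w - 2)
        have f3 : w + 2 * (1 / D) ≤ (q * w - ⌊q * w - D * w - 2⌋₊) / D := by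
          rw [le_div_iff₀' (by linarith), eD]; linarith
        refine ⟨⌊q * w - D * w - 2⌋₊, (q * w - ⌊q * w - D * w - 2⌋₊) / D, by field_simp; ring,
          by linarith, ?_, Or.inr f3⟩
        rw [div_le_iff₀' (by linarith), eD]; linarith
      · refine ⟨0, q * w / D, by field_simp; simp, by positivity, ?_, Or.inl rfl⟩
        rw [div_le_iff₀' (by linarith), eD]; linarith
    obtain ⟨v', a1, a2, a3, P⟩ := ih w' h2 (by linarith)
    have ev : (i + D * v') / q = w + D / q * (v' - w') := by field_simp; linarith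
    have b1 : D / q * (v' - w') ≤ (D / q) ^ (d + 1) := by
      rw [pow_succ']; exact mul_le_mul_of_nonneg_left (by linarith) r0
    have b2 : D / q * (v' - w') ≤ D / q := mul_le_of_le_one_right r0 (by linarith)
    have b3 : 0 ≤ D / q * (v' - w') := mul_nonneg r0 (by linarith)
    have p1 : (1 : ℝ) ≤ (64 * D ^ 2) ^ d := one_le_pow₀ (by linarith)
    refine ⟨(i + D * v') / q, by linarith, by linarith, by linarith,
      step (Pi.evalAddMonoidHom (fun _ => KK s) 0)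
        (AddMonoidHom.mk' (fun x j => x j.succ) fun _ _ => rfl)
        (fun a y => ⟨Fin.cons a y, rfl, rfl⟩) hD hq (i := i) (v' := v') (mul_div_cancel₀ _ q0.ne')
        (by linarith) (by linarith) a3 (h4.imp_right fun h => by linarith) P ?_
        (le_of_eq (by ring))⟩
    rw [pow_succ]
    refine mul_le_mul_of_nonneg_right (le_trans ?_ (le_mul_of_one_le_left (by linarith) p1)) q0.le
    linarith [mul_le_mul_of_nonneg_left D1 (zero_le_one.trans D1)]

theorem tree' {D r d : ℕ} (hD : 1 ≤ D) (hr : 60 * r ≤ D) (hd : d ≤ r)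
    (hq : 2048 * D ^ 2 ≤ Fintype.card (KK s)) {w : ℝ} (w0 : 0 ≤ w) (w1 : w ≤ 39 / 100) :
    ∃ v, w - (D / Fintype.card (KK s) : ℝ) ^ d ≤ v ∧ v ≤ w ∧
      HasPack (Fin d → KK s) v ((64 * D ^ 2) ^ r * Fintype.card (KK s)) := by
  have D1 : (1 : ℝ) ≤ D := by exact_mod_cast hD
  by_cases c : 0 ≤ w - (D / Fintype.card (KK s) : ℝ) ^ d
  · have a : 3 * (d : ℝ) / D ≤ 5 / 100 := by
      rw [div_le_iff₀ (by linarith)]
      have : 60 * (d : ℝ) ≤ D := by exact_mod_cast (by omega : 60 * d ≤ D)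
      linarith
    have b : 0 ≤ (D / Fintype.card (KK s) : ℝ) ^ d := by positivity
    obtain ⟨v, a1, a2, -, P⟩ := tree hD hq d _ c (by linarith)
    exact ⟨v, a1, by linarith, P.mono (mul_le_mul_of_nonneg_right
      (pow_le_pow_right₀ (by linarith [one_le_pow₀ (n := 2) D1]) hd) (Nat.cast_nonneg _))⟩
  · exact ⟨0, by linarith, w0, HasPack.const _ (Or.inl rfl) _⟩

end Tree

section Conc

/-! Independence on product spaces, a lower tail bound and the union bound. -/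

theorem ex_fst {Ω Ω' : Type} [Fintype Ω] [Fintype Ω'] [Nonempty Ω'] (X : Ω → ℝ) :
    𝔼 o : Ω × Ω', X o.1 = 𝔼 o, X o := by
  simpa using ex_prod X fun _ : Ω' => (1 : ℝ)

theorem ex_snd {Ω Ω' : Type} [Fintype Ω] [Fintype Ω'] [Nonempty Ω] (X : Ω' → ℝ) :
    𝔼 o : Ω × Ω', X o.2 = 𝔼 o, X o := by
  simpa using ex_prod (fun _ : Ω => (1 : ℝ)) X

theorem ex_eval {I : Type} [Fintype I] [DecidableEq I] {Ω : I → Type} [∀ i, Fintype (Ω i)]
    [∀ i, Nonempty (Ω i)] (i : I) (f : Ω i → ℝ) : 𝔼 ω : ∀ j, Ω j, f (ω i) = 𝔼 o, f o := by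
  have inv : Function.Involutive fun p : (∀ j, Ω j) × Ω i => (Function.update p.1 i p.2, p.1 i) :=
    fun p => by simp
  rw [← ex_fst (Ω' := Ω i) fun ω : ∀ j, Ω j => f (ω i), ← ex_snd (Ω := ∀ j, Ω j) f]
  exact Fintype.expect_equiv inv.toPerm _ _ fun _ => rfl

variable {I Ω : Type} [Fintype I] [DecidableEq I] [Fintype Ω] [Nonempty Ω]

/-- The function depends only on the coordinates in `S`. -/
def Dep (S : Finset I) (f : (I → Ω) → ℝ) : Prop :=
  ∀ ω ω', (∀ i ∈ S, ω i = ω' i) → f ω = f ω'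

theorem ex_mul (S : Finset I) {f g : (I → Ω) → ℝ} (hf : Dep S f)
    (hg : ∀ ω ω', (∀ i ∉ S, ω i = ω' i) → g ω = g ω') :
    𝔼 ω, f ω * g ω = (𝔼 ω, f ω) * 𝔼 ω, g ω := by
  have inv : Function.Involutive fun p : (I → Ω) × (I → Ω) =>
      (S.piecewise p.1 p.2, S.piecewise p.2 p.1) := fun p => by
    ext i <;> by_cases h : i ∈ S <;> simp [h]
  rw [← ex_prod, ← ex_fst (Ω' := I → Ω) fun ω => f ω * g ω]
  refine (Fintype.expect_equiv inv.toPerm _ _ fun p => ?_).symm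
  show _ = f (S.piecewise p.1 p.2) * g (S.piecewise p.1 p.2)
  rw [hf p.1 (S.piecewise p.1 p.2) fun i h => by simp [h],
    hg p.2 (S.piecewise p.1 p.2) fun i h => by simp [h]]

theorem ex_pair {i j : I} (h : i ≠ j) (f g : Ω → ℝ) :
    𝔼 ω : I → Ω, f (ω i) * g (ω j) = (𝔼 o, f o) * 𝔼 o, g o := by
  rw [ex_mul {i} (f := fun ω => f (ω i)) (g := fun ω => g (ω j))
    (fun ω ω' e => congrArg f (e i (mem_singleton_self i)))
    (fun ω ω' e => congrArg g (e j (by simpa using h.symm))),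
    ex_eval (Ω := fun _ => Ω) i f, ex_eval (Ω := fun _ => Ω) j g]

theorem ex_prod_fin {ι : Type} (L : Finset ι) (S : ι → Finset I) (Y : ι → (I → Ω) → ℝ)
    (hS : ∀ l ∈ L, ∀ l' ∈ L, l ≠ l' → Disjoint (S l) (S l')) (hY : ∀ l ∈ L, Dep (S l) (Y l)) :
    𝔼 ω, ∏ l ∈ L, Y l ω = ∏ l ∈ L, 𝔼 ω, Y l ω := by
  induction L using Finset.induction_on with
  | empty => simp
  | insert a L ha ih =>
    simp only [prod_insert ha]
    rw [ex_mul (S a) (hY a (mem_insert_self _ _)) (g := fun ω => ∏ l ∈ L, Y l ω),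
      ih (fun l h l' h' => hS l (mem_insert_of_mem h) l' (mem_insert_of_mem h'))
        fun l h => hY l (mem_insert_of_mem h)]
    intro ω ω' e
    refine prod_congr rfl fun l hl => hY l (mem_insert_of_mem hl) _ _ fun i hi => e i ?_
    exact disjoint_left.1 (hS l (mem_insert_of_mem hl) a (mem_insert_self _ _)
      (ne_of_mem_of_not_mem hl ha)) hi

theorem mgf {W : Type} [Fintype W] [Nonempty W] (X : W → ℝ) {σ B : ℝ} (hσ : 0 < σ) (hB : 1 ≤ B)
    (hE : σ ≤ 𝔼 ω, X ω) (hb : ∀ ω, |X ω| ≤ B * σ) :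
    𝔼 ω, Real.exp (-(1 / (2 * B ^ 2 * σ) * X ω)) ≤ Real.exp (-(1 / (4 * B ^ 2))) := by
  set θ := 1 / (2 * B ^ 2 * σ) with hθ
  have B0 : 0 < B := by linarith
  have θ0 : 0 < θ := by positivity
  have e1 : θ * (B * σ) = 1 / (2 * B) := by rw [hθ]; field_simp
  have e2 : θ * σ = 2 * (1 / (4 * B ^ 2)) := by rw [hθ]; field_simp; norm_num
  have e3 : (1 / (2 * B)) ^ 2 = 1 / (4 * B ^ 2) := by field_simp; norm_num
  have a : ∀ ω, Real.exp (-(θ * X ω)) ≤ (1 + 1 / (4 * B ^ 2)) - θ * X ω := fun ω => by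
    have b : |-(θ * X ω)| ≤ 1 / (2 * B) := by
      rw [abs_neg, abs_mul, abs_of_pos θ0, ← e1]
      exact mul_le_mul_of_nonneg_left (hb ω) θ0.le
    have b1 : 1 / (2 * B) ≤ 1 := (div_le_one (by linarith)).2 (by linarith)
    have c := (abs_le.1 (Real.abs_exp_sub_one_sub_id_le (b.trans b1))).2
    have d := pow_le_pow_left₀ (abs_nonneg _) b 2
    rw [sq_abs, e3] at d
    linarith
  refine (expect_le_expect fun ω _ => a ω).trans ?_
  rw [expect_sub_distrib, Fintype.expect_const, ← mul_expect]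
  linarith [mul_le_mul_of_nonneg_left hE θ0.le, Real.add_one_le_exp (-(1 / (4 * B ^ 2)))]

theorem tail {ι : Type} (L : Finset ι) (S : ι → Finset I) (X : ι → (I → Ω) → ℝ) {σ B : ℝ}
    (hσ : 0 ≤ σ) (hB : 1 ≤ B) (hS : ∀ l ∈ L, ∀ l' ∈ L, l ≠ l' → Disjoint (S l) (S l'))
    (hX : ∀ l ∈ L, Dep (S l) (X l)) (hE : ∀ l ∈ L, σ ≤ 𝔼 ω, X l ω)
    (hb : ∀ l ∈ L, ∀ ω, |X l ω| ≤ B * σ) :
    𝔼 ω, (if ∑ l ∈ L, X l ω < 2 * (B * σ) then (1 : ℝ) else 0) ≤
      Real.exp (1 - L.card / (4 * B ^ 2)) := by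
  rcases hσ.eq_or_lt with rfl | hσ
  · refine expect_le univ_nonempty fun ω _ => ?_
    rw [if_neg]
    · positivity
    · simp only [mul_zero, not_lt] at hb ⊢
      exact sum_nonneg fun l hl => (abs_nonpos_iff.1 (hb l hl ω)).ge
  set θ := 1 / (2 * B ^ 2 * σ) with hθ
  have B0 : 0 < B := by linarith
  have θ0 : 0 < θ := by positivity
  have e1 : θ * (2 * (B * σ)) ≤ 1 := by
    rw [show θ * (2 * (B * σ)) = 1 / B by rw [hθ]; field_simp]
    exact (div_le_one B0).2 hB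
  have a : ∀ ω, (if ∑ l ∈ L, X l ω < 2 * (B * σ) then (1 : ℝ) else 0) ≤
      Real.exp 1 * ∏ l ∈ L, Real.exp (-(θ * X l ω)) := fun ω => by
    rw [← Real.exp_sum, ← Real.exp_add]
    split_ifs with h
    · refine Real.one_le_exp ?_
      rw [sum_neg_distrib, ← mul_sum]
      linarith [mul_le_mul_of_nonneg_left h.le θ0.le]
    · positivity
  refine (expect_le_expect fun ω _ => a ω).trans ?_
  rw [← mul_expect, ex_prod_fin L S _ hS fun l hl ω ω' e => by rw [hX l hl ω ω' e], sub_eq_add_neg,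
    Real.exp_add]
  refine mul_le_mul_of_nonneg_left ?_ (Real.exp_pos _).le
  refine (prod_le_prod (fun l _ => expect_nonneg fun _ _ => (Real.exp_pos _).le)
    fun l hl => mgf (X l) hσ hB (hE l hl) (hb l hl)).trans (le_of_eq ?_)
  rw [prod_const, ← Real.exp_nat_mul]
  congr 1; ring

theorem union {W J : Type} [Fintype W] [Nonempty W] [Fintype J] (bad : J → W → Prop)
    [∀ j ω, Decidable (bad j ω)] {p : ℝ}
    (h : ∀ j, 𝔼 ω, (if bad j ω then (1 : ℝ) else 0) ≤ p) (hp : Fintype.card J * p < 1) :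
    ∃ ω, ∀ j, ¬ bad j ω := by
  have a : 𝔼 ω, ∑ j, (if bad j ω then (1 : ℝ) else 0) < 1 := by
    rw [expect_sum_comm]
    refine lt_of_le_of_lt (sum_le_card_nsmul _ _ _ fun j _ => h j) ?_
    rwa [card_univ, nsmul_eq_mul]
  obtain ⟨ω, -, hω⟩ := exists_lt_of_expect_lt univ_nonempty a
  refine ⟨ω, fun j hj => hω.not_ge ?_⟩
  have := single_le_sum (f := fun j => if bad j ω then (1 : ℝ) else 0)
    (fun j _ => by split_ifs <;> simp) (mem_univ j)
  simpa [hj] using this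

end Conc

section Graph

/-! The random graph on types and points: all codegrees are large for some choice of labels. -/

theorem comp_ne {W E : Type} [AddCommGroup W] [AddCommGroup E] {φ : E →+ ZMod 2} (h : φ ≠ 0)
    {a : W →+ E} (ha : Function.Surjective a) : φ.comp a ≠ 0 := fun c =>
  h (AddMonoidHom.ext fun y => by
    obtain ⟨x, rfl⟩ := ha y
    exact DFunLike.congr_fun c x)

section
variable {W E E' Ω Ξ Ξ' : Type} [AddCommGroup W] [Fintype W] [AddCommGroup E] [AddCommGroup E']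
  [Fintype Ω] [Fintype Ξ] [Fintype Ξ'] {h : Ω → E → ℝ} {φ : Ξ → E →+ ZMod 2} {c : Ω → Ξ → ℝ}
  {m : Ξ → ℝ} {h' : Ω → E' → ℝ} {φ' : Ξ' → E' →+ ZMod 2} {c' : Ω → Ξ' → ℝ} {m' : Ξ' → ℝ}
  {v v' R : ℝ}

theorem loc0 (P : IsPack h φ c m v R) {a : W →+ E} (ha : Function.Surjective a) (o : Ω) :
    ∑ y, ∑ ξ, c o ξ * sg (φ ξ (a y)) = 0 := by
  rw [sum_comm]
  refine sum_eq_zero fun ξ _ => ?_
  have := sum_sg ((φ ξ).comp a)
  rw [if_neg (comp_ne (P.ne ξ) ha)] at this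
  rw [← mul_sum]
  exact mul_eq_zero_of_right _ this

theorem loc1 (P : IsPack h φ c m v R) {a : W →+ E} (ha : Function.Surjective a) (o : Ω) :
    ∑ y, (1 - h o (a y)) = Fintype.card W * (1 - v) := by
  simp only [P.exp, sum_sub_distrib, sum_add_distrib, loc0 P ha, sum_const, card_univ,
    nsmul_eq_mul]
  ring

theorem loc2 (P : IsPack h φ c m v R) (P' : IsPack h' φ' c' m' v' R) {a : W →+ E}
    (ha : Function.Surjective a) {a' : W →+ E'} (ha' : Function.Surjective a') (o o' : Ω) :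
    ∑ y, (1 - h o (a y)) * (1 - h' o' (a' y)) = Fintype.card W * ((1 - v) * (1 - v') +
      ∑ ξ, ∑ η, if (φ ξ).comp a = (φ' η).comp a' then c o ξ * c' o' η else 0) := by
  have e : ∀ y, (1 - h o (a y)) * (1 - h' o' (a' y)) = (1 - v) * (1 - v') -
      (1 - v') * ∑ ξ, c o ξ * sg (φ ξ (a y)) - (1 - v) * ∑ η, c' o' η * sg (φ' η (a' y)) +
      ∑ ξ, ∑ η, c o ξ * c' o' η * (sg ((φ ξ).comp a y) * sg ((φ' η).comp a' y)) := fun y => by
    have : ∑ ξ, ∑ η, c o ξ * c' o' η * (sg ((φ ξ).comp a y) * sg ((φ' η).comp a' y)) =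
        (∑ ξ, c o ξ * sg (φ ξ (a y))) * ∑ η, c' o' η * sg (φ' η (a' y)) := by
      rw [sum_mul_sum]
      exact sum_congr rfl fun _ _ => sum_congr rfl fun _ _ => by
        simp only [AddMonoidHom.comp_apply]; ring
    rw [this, P.exp, P'.exp]; ring
  have e2 : ∑ y, ∑ ξ, ∑ η, c o ξ * c' o' η * (sg ((φ ξ).comp a y) * sg ((φ' η).comp a' y)) =
      Fintype.card W *
        ∑ ξ, ∑ η, if (φ ξ).comp a = (φ' η).comp a' then c o ξ * c' o' η else 0 := by
    rw [sum_comm, mul_sum]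
    refine sum_congr rfl fun ξ _ => ?_
    rw [sum_comm, mul_sum]
    refine sum_congr rfl fun η _ => ?_
    rw [← mul_sum, sum_sg_sg]
    split_ifs <;> ring
  simp only [e]
  rw [sum_add_distrib, e2]
  simp only [sum_sub_distrib, ← mul_sum, loc0 P ha, loc0 P' ha', sum_const, card_univ,
    nsmul_eq_mul]
  ring

/-- The correlation term over a set of pairs of characters. -/
noncomputable def cor (Λ : Ξ → Ξ' → Prop) (f : Ξ → ℝ) (g : Ξ' → ℝ) : ℝ :=
  ∑ ξ, ∑ η, if Λ ξ η then f ξ * g η else 0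

theorem cor_nonneg (Λ : Ξ → Ξ' → Prop) (P : IsPack h φ c m v R) (P' : IsPack h' φ' c' m' v' R) :
    0 ≤ cor Λ m m' :=
  sum_nonneg fun ξ _ => sum_nonneg fun η _ => by
    split_ifs
    · exact mul_nonneg (P.m0 ξ) (P'.m0 η)
    · exact le_rfl

theorem abs_cor (Λ : Ξ → Ξ' → Prop) (P : IsPack h φ c m v R) (P' : IsPack h' φ' c' m' v' R)
    (o o' : Ω) : |cor Λ (c o) (c' o')| ≤ R ^ 2 * cor Λ m m' := by
  unfold cor
  rw [mul_sum]
  refine (abs_sum_le_sum_abs _ _).trans (sum_le_sum fun ξ _ => ?_)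
  rw [mul_sum]
  refine (abs_sum_le_sum_abs _ _).trans (sum_le_sum fun η _ => ?_)
  split_ifs
  · rw [abs_mul]
    exact (mul_le_mul (P.bd o ξ) (P'.bd o' η) (abs_nonneg _)
      ((abs_nonneg _).trans (P.bd o ξ))).trans (le_of_eq (by ring))
  · simp

theorem ex_cor {U : Type} [Fintype U] (Λ : Ξ → Ξ' → Prop) (f : U → Ξ → ℝ) (g : U → Ξ' → ℝ)
    (H : ∀ ξ η, m ξ * m' η ≤ 𝔼 ω, f ω ξ * g ω η) : cor Λ m m' ≤ 𝔼 ω, cor Λ (f ω) (g ω) := by
  simp only [cor, expect_sum_comm]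
  refine sum_le_sum fun ξ _ => sum_le_sum fun η _ => ?_
  split_ifs
  · exact H ξ η
  · simp

end

theorem good {T ι Ω : Type} [Fintype T] [DecidableEq T] [Fintype ι] [Fintype Ω] [Nonempty Ω]
    {e : ι → T}
    (he : Function.Injective e) (t t' : T) (X : Ω → Ω → ℝ) {σ B : ℝ} (hσ : 0 ≤ σ) (hB : 1 ≤ B)
    (hb : ∀ o o', |X o o'| ≤ B * σ)
    (hE : ∀ l, σ ≤ 𝔼 ω : Sym2 T → Ω, X (ω s(t, e l)) (ω s(t', e l))) :
    𝔼 ω : Sym2 T → Ω, (if ∑ l, X (ω s(t, e l)) (ω s(t', e l)) < 0 then (1 : ℝ) else 0) ≤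
      Real.exp (1 - (Fintype.card ι - 2) / (4 * B ^ 2)) := by
  set Q : ι → Prop := fun l => e l ≠ t ∧ e l ≠ t' with hQ
  have c1 : (univ.filter fun l => ¬ Q l).card ≤ 2 := by
    refine (card_le_card_of_injOn e (t := {t, t'}) (fun l hl => ?_) he.injOn).trans card_le_two
    have : ¬ Q l := by simpa using hl
    simp only [hQ] at this
    simp only [coe_insert, coe_singleton, Set.mem_insert_iff, Set.mem_singleton_iff]
    tauto
  have c2 : (Fintype.card ι : ℝ) - 2 ≤ (univ.filter Q).card := by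
    have := card_filter_add_card_filter_not (s := univ) Q
    rw [card_univ] at this
    have : Fintype.card ι ≤ (univ.filter Q).card + 2 := by omega
    have : (Fintype.card ι : ℝ) ≤ (univ.filter Q).card + 2 := by exact_mod_cast this
    linarith
  have a := tail (univ.filter Q) (fun l => {s(t, e l), s(t', e l)})
    (fun l (ω : Sym2 T → Ω) => X (ω s(t, e l)) (ω s(t', e l))) hσ hB (fun l hl l' hl' hne => ?_)
    (fun l _ ω ω' h => congrArg₂ X (h s(t, e l) (by simp)) (h s(t', e l) (by simp)))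
    (fun l _ => hE l) fun l _ ω => hb _ _
  · refine le_trans (expect_le_expect fun ω _ => ?_) (a.trans (Real.exp_le_exp.2 ?_))
    · split_ifs with h1 h2
      · exact le_rfl
      · refine absurd h1 (not_lt.2 ?_)
        rw [← sum_filter_add_sum_filter_not univ Q]
        have b := card_nsmul_le_sum (univ.filter fun l => ¬ Q l)
          (fun l => X (ω s(t, e l)) (ω s(t', e l))) (-(B * σ)) fun l _ => (abs_le.1 (hb _ _)).1
        have c : ((univ.filter fun l => ¬ Q l).card : ℝ) ≤ 2 := by exact_mod_cast c1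
        rw [nsmul_eq_mul] at b
        linarith [mul_le_mul_of_nonneg_right c (mul_nonneg (zero_le_one.trans hB) hσ)]
      · exact zero_le_one
      · exact le_rfl
    · gcongr
  · have h1 := (mem_filter.1 hl).2
    have h2 := (mem_filter.1 hl').2
    have h3 : e l ≠ e l' := he.ne hne
    simp only [hQ] at h1 h2
    simp only [disjoint_insert_left, disjoint_singleton_left, mem_insert, mem_singleton,
      Sym2.eq_iff]
    grind

section
variable {A C Ω : Type} [AddCommGroup A] [Fintype C] [Fintype Ω] [Nonempty Ω] {V E Ξ : C → Type}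
  [∀ c, AddCommGroup (V c)] [∀ c, Fintype (V c)] [∀ d, AddCommGroup (E d)] [∀ d, Fintype (Ξ d)]

/-- Types of vertices. -/
abbrev Ty (N : C → ℕ) : Type := Σ c, Fin (N c)

/-- Vertices. -/
abbrev Vx (N : C → ℕ) (V : C → Type) : Type := Σ t : Ty N, V t.1

/-- One-sided indicator at depth `d`. -/
noncomputable def fi (P : C → A → Prop) (μ : ∀ d, A →+ A →+ E d) (h : ∀ d, Ω → E d → ℝ) (d : C)
    (o : Ω) (x y : A) : ℝ := if P d x then 1 else 1 - h d o (μ d x y)

theorem codeg (N : C → ℕ) (emb : ∀ c, V c →+ A) (dep : C → C → C) (P : C → A → Prop)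
    (μ : ∀ d, A →+ A →+ E d)
    (hμ : ∀ a c x, ¬ P (dep a c) x → Function.Surjective ((μ (dep a c) x).comp (emb c)))
    {h : ∀ d, Ω → E d → ℝ} {φ : ∀ d, Ξ d → E d →+ ZMod 2} {cf : ∀ d, Ω → Ξ d → ℝ}
    {m : ∀ d, Ξ d → ℝ} {v : C → ℝ} {R u N0 : ℝ}
    (H : ∀ d, IsPack (h d) (φ d) (cf d) (m d) (v d) R) (hR : 1 ≤ R) (u0 : 0 ≤ u) (u1 : u ≤ 1)
    (hu : ∀ d, u ≤ 1 - v d) (hN : ∀ c, N0 ≤ N c)
    (hp : Fintype.card (Vx N V × Vx N V × C) * Real.exp (1 - (N0 - 2) / (4 * (R ^ 2) ^ 2)) < 1) :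
    ∃ ω : Sym2 (Ty N) → Ω, ∀ x x' : Vx N V, u ^ 2 * Fintype.card (Vx N V) ≤ ∑ y : Vx N V,
      fi P μ h (dep x.1.1 y.1.1) (ω s(x.1, y.1)) (emb _ x.2) (emb _ y.2) *
        fi P μ h (dep x'.1.1 y.1.1) (ω s(x'.1, y.1)) (emb _ x'.2) (emb _ y.2) := by
  let Λ : ∀ (x x' : Vx N V) (c : C), Ξ (dep x.1.1 c) → Ξ (dep x'.1.1 c) → Prop :=
    fun x x' c ξ η => ¬ P (dep x.1.1 c) (emb _ x.2) ∧ ¬ P (dep x'.1.1 c) (emb _ x'.2) ∧
      (φ _ ξ).comp ((μ _ (emb _ x.2)).comp (emb c)) = (φ _ η).comp ((μ _ (emb _ x'.2)).comp (emb c))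
  have U := union (W := Sym2 (Ty N) → Ω) (fun (j : Vx N V × Vx N V × C) ω =>
    ∑ l : Fin (N j.2.2), cor (Λ j.1 j.2.1 j.2.2) (cf _ (ω s(j.1.1, ⟨j.2.2, l⟩)))
      (cf _ (ω s(j.2.1.1, ⟨j.2.2, l⟩))) < 0) ?_ hp
  · obtain ⟨ω, hω⟩ := U
    refine ⟨ω, fun x x' => ?_⟩
    have k : ∀ (c : C) (o o' : Ω), Fintype.card (V c) * (u ^ 2 + cor (Λ x x' c) (cf _ o) (cf _ o')) ≤
        ∑ y : V c, fi P μ h (dep x.1.1 c) o (emb _ x.2) (emb _ y) *
          fi P μ h (dep x'.1.1 c) o' (emb _ x'.2) (emb _ y) := fun c o o' => by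
      have q0 : (0 : ℝ) ≤ Fintype.card (V c) := Nat.cast_nonneg _
      have uu : u ^ 2 ≤ u := (sq u).le.trans (mul_le_of_le_one_left u0 u1)
      by_cases p : P (dep x.1.1 c) (emb _ x.2) <;> by_cases p' : P (dep x'.1.1 c) (emb _ x'.2)
      · simp only [fi, cor, Λ, p, p', if_true, not_true, false_and, if_false, sum_const_zero,
          mul_one, sum_const, card_univ, nsmul_eq_mul, add_zero]
        exact mul_le_of_le_one_right q0 (uu.trans u1)
      · have := loc1 (H _) (hμ _ c _ p') o'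
        simp only [AddMonoidHom.comp_apply] at this
        simp only [fi, cor, Λ, p, p', if_true, not_true, false_and, if_false, sum_const_zero,
          one_mul, add_zero, this]
        exact mul_le_mul_of_nonneg_left (uu.trans (hu _)) q0
      · have := loc1 (H _) (hμ _ c _ p) o
        simp only [AddMonoidHom.comp_apply] at this
        simp only [fi, cor, Λ, p, p', if_true, not_true, false_and, and_false, if_false,
          sum_const_zero, mul_one, add_zero, this]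
        exact mul_le_mul_of_nonneg_left (uu.trans (hu _)) q0
      · have := loc2 (H _) (H _) (hμ _ c _ p) (hμ _ c _ p') o o'
        simp only [AddMonoidHom.comp_apply] at this
        simp only [fi, cor, Λ, p, p', if_false, not_false_iff, true_and, this]
        refine mul_le_mul_of_nonneg_left (add_le_add ?_ (le_of_eq ?_)) q0
        · rw [sq]; exact mul_le_mul (hu _) (hu _) u0 (u0.trans (hu _))
        · congr
    rw [Fintype.sum_sigma, Fintype.sum_sigma, Fintype.card_sigma, Nat.cast_sum, mul_sum,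
      Fintype.sum_sigma]
    refine sum_le_sum fun c _ => le_trans ?_ (sum_le_sum fun l _ =>
      k c (ω s(x.1, ⟨c, l⟩)) (ω s(x'.1, ⟨c, l⟩)))
    have := not_lt.1 (hω (x, x', c))
    simp only [mul_add, sum_add_distrib, mul_comm (u ^ 2)]
    refine le_add_of_nonneg_right ?_
    rw [← mul_sum]
    exact mul_nonneg (Nat.cast_nonneg _) this
  · rintro ⟨x, x', c⟩
    refine (good (e := fun l : Fin (N c) => (⟨c, l⟩ : Ty N))
      (sigma_mk_injective (β := fun c => Fin (N c))) x.1 x'.1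
      (fun o o' => cor (Λ x x' c) (cf _ o) (cf _ o'))
      (cor_nonneg (Λ x x' c) (H (dep x.1.1 c)) (H (dep x'.1.1 c))) (one_le_pow₀ hR)
      (abs_cor (Λ x x' c) (H (dep x.1.1 c)) (H (dep x'.1.1 c)))
      fun l => ex_cor (U := Sym2 (Ty N) → Ω) (Λ x x' c) (fun ω => cf _ (ω s(x.1, ⟨c, l⟩)))
        (fun ω => cf _ (ω s(x'.1, ⟨c, l⟩))) fun ξ η => ?_).trans
      (Real.exp_le_exp.2 ?_)
    · obtain ⟨t, x⟩ := x
      obtain ⟨t', x'⟩ := x'
      by_cases e : t = t'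
      · subst e
        rw [ex_eval (Ω := fun _ => Ω) s(t, ⟨c, l⟩) fun o => cf _ o ξ * cf _ o η]
        exact (H _).e2 ξ η
      · rw [ex_pair (fun k => e (Sym2.congr_left.1 k)) (fun o => cf _ o ξ) fun o => cf _ o η]
        exact mul_le_mul ((H _).e1 ξ) ((H _).e1 η) ((H _).m0 η) (((H _).m0 ξ).trans ((H _).e1 ξ))
    · rw [Fintype.card_fin]
      have := hN c
      gcongr

end

end Graph

section Build

/-! The graph with large codegrees and a small degree sum. -/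

/-- Indicator of a proposition. -/
noncomputable def ind (p : Prop) : ℝ := if p then 1 else 0

theorem ghat_le {W : Type} [Fintype W] {n k : ℕ} (hW : Fintype.card W = n) (hk : k ≤ n)
    (J : W → W → Prop) (hJ : ∀ x y, J x y → J y x) (F : W → W → ℝ)
    (hF : ∀ x y, F x y = 0 ∨ (F x y = 1 ∧ J x y))
    (hc : ∀ x x', (k : ℝ) + 2 ≤ ∑ y, F x y * F x' y) :
    2 * (ghat n k : ℝ) ≤ ∑ x, ∑ y, ind (J x y) := by
  let G : SimpleGraph W := SimpleGraph.fromRel J
  have adj : ∀ x y, G.Adj x y ↔ x ≠ y ∧ J x y := fun x y => by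
    simp only [G, SimpleGraph.fromRel_adj]
    exact ⟨fun a => ⟨a.1, a.2.elim id (hJ _ _)⟩, fun a => ⟨a.1, Or.inl a.2⟩⟩
  obtain ⟨r, hr⟩ := Nat.exists_eq_add_of_le hk
  have p : Paths k Gᶜᶜ := by
    rw [compl_compl]
    intro x x' _
    have a : ∑ y, F x y * F x' y ≤ ∑ y, ((if y ∈ nb G x ∩ nb G x' then (1 : ℝ) else 0) +
        (if y = x then 1 else 0) + if y = x' then 1 else 0) := sum_le_sum fun y _ => by
      simp only [mem_inter, mem_nb, adj]
      rcases hF x y with h | h <;> rcases hF x' y with h' | h'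
      · rw [h, zero_mul]; positivity
      · rw [h, zero_mul]; positivity
      · rw [h', mul_zero]; positivity
      · rw [h.1, h'.1]
        by_cases e : y = x <;> by_cases e' : y = x' <;> split_ifs <;> grind
    simp only [sum_add_distrib, sum_ite_eq', mem_univ, if_true, sum_boole, filter_mem_eq_inter,
      univ_inter] at a
    have b : (k : ℝ) ≤ (nb G x ∩ nb G x').card := by linarith [hc x x']
    have : k ≤ (nb G x ∩ nb G x').card := by exact_mod_cast b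
    omega
  have a := ghat_upper hr hW ((paths_compl (hW.trans hr) Gᶜ).1 p)
  have b := tot_compl G
  rw [hW] at b
  have c : 2 * (ghat n k : ℝ) ≤ tot G := by exact_mod_cast (by omega : 2 * ghat n k ≤ tot G)
  refine c.trans ?_
  rw [tot, Nat.cast_sum]
  refine sum_le_sum fun x _ => ?_
  simp only [ind]
  rw [sum_boole]
  exact_mod_cast card_le_card fun y hy => by
    simpa using ((adj x y).1 (mem_nb.1 hy)).2

theorem exists_mu (s d : ℕ) : ∃ μ : (Fin d → KK s) →+ (Fin d → KK s) →+ (Fin d → KK s),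
    (∀ x y, μ x y = μ y x) ∧ ∀ x, x ≠ 0 → Function.Surjective (μ x) := by
  by_cases h : d * s = 0
  · refine ⟨0, fun _ _ => rfl, fun x hx => absurd (funext fun j => funext fun i => ?_) hx⟩
    exact absurd h (Nat.mul_pos j.pos i.pos).ne'
  have e : (Fin d → KK s) ≃ₗ[ZMod 2] GaloisField 2 (d * s) :=
    LinearEquiv.ofFinrankEq _ _ (by
      rw [GaloisField.finrank 2 h]
      simp [Module.finrank_pi_fintype])
  refine ⟨AddMonoidHom.mk' (fun x => AddMonoidHom.mk' (fun y => e.symm (e x * e y))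
    fun a b => by simp [mul_add]) fun a b => AddMonoidHom.ext fun y => by simp [add_mul],
    fun x y => by simp [mul_comm], fun x hx z => ⟨e.symm ((e x)⁻¹ * e z), ?_⟩⟩
  have : e x ≠ 0 := by simpa using hx
  simp [this]

theorem card_ker {W E : Type} [AddCommGroup W] [Fintype W] [AddCommGroup E] [Fintype E]
    (f : W →+ E) (hf : Function.Surjective f) :
    ∑ x, ind (f x = 0) = Fintype.card W / Fintype.card E := by
  have a := AddSubgroup.card_mul_index f.ker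
  rw [AddSubgroup.index_ker, AddMonoidHom.range_eq_top.2 hf, AddSubgroup.card_top,
    Nat.card_eq_fintype_card, Nat.card_eq_fintype_card, Nat.card_eq_fintype_card,
    Fintype.card_subtype] at a
  have q0 : (Fintype.card E : ℝ) ≠ 0 := by exact_mod_cast Fintype.card_ne_zero
  simp only [ind]
  rw [sum_boole, eq_div_iff q0, ← a]
  simp [AddMonoidHom.mem_ker]

theorem pair_sum {W W' E Ω Ξ : Type} [AddCommGroup W] [Fintype W] [AddCommGroup W'] [Fintype W']
    [AddCommGroup E] [Fintype E] [Fintype Ω] [Fintype Ξ] {h : Ω → E → ℝ} {φ : Ξ → E →+ ZMod 2}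
    {c : Ω → Ξ → ℝ} {m : Ξ → ℝ} {v R : ℝ} (P : IsPack h φ c m v R) (hv : v ≤ 1) {ρ : W →+ E}
    {ρ' : W' →+ E} (hρ : Function.Surjective ρ) (hρ' : Function.Surjective ρ') {μ : E →+ E →+ E}
    (hμ : ∀ x, x ≠ 0 → Function.Surjective (μ x)) (o : Ω) :
    ∑ x, ∑ y, ind (ρ x = 0 ∨ ρ' y = 0 ∨ h o (μ (ρ x) (ρ' y)) = 0) ≤
      2 * (Fintype.card W * Fintype.card W' / Fintype.card E) +
        Fintype.card W * Fintype.card W' * (1 - v) := by
  have b1 : ∀ x, ∑ y, ind (ρ x = 0 ∨ ρ' y = 0 ∨ h o (μ (ρ x) (ρ' y)) = 0) ≤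
      ind (ρ x = 0) * Fintype.card W' + Fintype.card W' / Fintype.card E +
        Fintype.card W' * (1 - v) := fun x => by
    have t0 : (0 : ℝ) ≤ Fintype.card W' / Fintype.card E := by positivity
    have t1 : 0 ≤ Fintype.card W' * (1 - v) := mul_nonneg (Nat.cast_nonneg _) (by linarith)
    by_cases z : ρ x = 0
    · simp only [ind, z, true_or, if_true, sum_const, card_univ, nsmul_eq_mul]
      linarith
    · have l1 := loc1 P (a := (μ (ρ x)).comp ρ') ((hμ _ z).comp hρ') o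
      rw [← card_ker _ hρ', ← l1, ind, if_neg z, zero_mul, zero_add, ← sum_add_distrib]
      refine sum_le_sum fun y _ => ?_
      simp only [AddMonoidHom.comp_apply]
      rcases P.two o (μ (ρ x) (ρ' y)) with e | e <;> rw [e] <;>
        by_cases z' : ρ' y = 0 <;> simp [ind, z, z']
  refine (sum_le_sum fun x _ => b1 x).trans (le_of_eq ?_)
  simp only [sum_add_distrib, ← sum_mul, card_ker _ hρ, sum_const, card_univ, nsmul_eq_mul]
  ring

variable {s : ℕ}

/-- Extension by zero. -/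
def emb (c : ℕ) : (Fin c → KK s) →+ (ℕ → KK s) :=
  AddMonoidHom.mk' (fun x j => if h : j < c then x ⟨j, h⟩ else 0) fun a b => by
    ext j : 1
    by_cases h : j < c <;> simp [h]

/-- Restriction. -/
def res (d : ℕ) : (ℕ → KK s) →+ (Fin d → KK s) :=
  AddMonoidHom.mk' (fun x j => x j) fun _ _ => rfl

theorem res_emb {d c : ℕ} (h : d ≤ c) : Function.Surjective ((res (s := s) d).comp (emb c)) :=
  fun z => ⟨res c (emb d z), funext fun j => by
    simp [res, emb, j.2.trans_le h]⟩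

theorem design {r D n k : ℕ} (hD : 1 ≤ D) (hr : 60 * r ≤ D)
    (hq : 2048 * D ^ 2 ≤ Fintype.card (KK s)) (N : Fin (r + 1) → ℕ)
    (hn : ∑ c, N c * Fintype.card (KK s) ^ (c : ℕ) = n) (hk : k ≤ n) {u N0 : ℝ}
    (u0 : 61 / 100 ≤ u) (u1 : u ≤ 1) (hu : k + 2 ≤ u ^ 2 * n) (hN : ∀ c, N0 ≤ N c)
    (hp : n * (n * (r + 1)) * Real.exp (1 - (N0 - 2) /
      (4 * (((64 * D ^ 2) ^ r * Fintype.card (KK s)) ^ 2) ^ 2)) < 1) :
    2 * (ghat n k : ℝ) ≤ u * n * n + 2 * (2 + D ^ r) * n * ∑ c, (N c : ℝ) := by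
  have D1 : (1 : ℝ) ≤ D := by exact_mod_cast hD
  have q1 : (1 : ℝ) ≤ Fintype.card (KK s) := by exact_mod_cast Fintype.card_pos
  set q : ℝ := ((Fintype.card (KK s) : ℕ) : ℝ) with hqq
  set R : ℝ := (64 * D ^ 2) ^ r * q with hR
  have R1 : 1 ≤ R := one_le_mul_of_one_le_of_one_le 
    (one_le_pow₀ (by linarith [one_le_pow₀ (n := 2) D1])) q1
  have tr := fun d : Fin (r + 1) => tree' (s := s) hD hr (Nat.lt_succ_iff.1 d.2) hq
    (w := 1 - u) (by linarith) (by linarith)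
  choose v v1 v2 Ω Ξ i1 i2 i3 h φ cf m P using tr
  choose μ μ1 μ2 using exists_mu s
  let V : Fin (r + 1) → Type := fun c => Fin c → KK s
  have cV : ∀ c : ℕ, (Fintype.card (Fin c → KK s) : ℝ) = q ^ c := fun c => by simp [hqq]
  have cW : Fintype.card (Vx N V) = n := by
    rw [Fintype.card_sigma, Fintype.sum_sigma, ← hn]
    simp [V]
  let h' : ∀ d : Fin (r + 1), (∀ d, Ω d) → V d → ℝ := fun d o => h d (o d)
  have P' : ∀ d, IsPack (h' d) (φ d) (fun o => cf d (o d)) (m d) (v d) R := fun d =>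
    ⟨fun _ => (P d).two _, (P d).ne, fun _ => (P d).exp _, (P d).m0,
      fun ξ => (ex_eval d fun o => cf d o ξ).symm ▸ (P d).e1 ξ,
      fun ξ η => (ex_eval d fun o => cf d o ξ * cf d o η).symm ▸ (P d).e2 ξ η,
      fun _ => (P d).bd _⟩
  let ν : ∀ d : Fin (r + 1), (ℕ → KK s) →+ (ℕ → KK s) →+ V d :=
    fun d => ((μ d).comp (res d)).compl₂ (res d)
  let Z : Fin (r + 1) → (ℕ → KK s) → Prop := fun d x => res d x = 0
  have hν : ∀ a c x, ¬ Z (min a c) x →
      Function.Surjective ((ν (min a c) x).comp (emb (c : ℕ))) := fun a c x hx =>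
    (μ2 _ _ hx).comp (res_emb (Fin.le_def.1 (min_le_right a c)))
  obtain ⟨ω, hω⟩ := codeg (V := V) N (fun c => emb c) min Z ν hν P' R1 (u := u) (by linarith) u1
    (fun d => by linarith [v2 d]) hN (by simpa [cW] using hp)
  let J0 : Fin (r + 1) → (∀ d, Ω d) → (ℕ → KK s) → (ℕ → KK s) → Prop :=
    fun d o x y => Z d x ∨ Z d y ∨ h' d o (ν d x y) = 0
  have J1 : ∀ d o x y, J0 d o x y → J0 d o y x := fun d o x y a => by
    have : ν d y x = ν d x y := μ1 _ _ _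
    simp only [J0, this] at a ⊢
    tauto
  refine (ghat_le cW hk (fun x y => J0 (min x.1.1 y.1.1) (ω s(x.1, y.1)) (emb _ x.2) (emb _ y.2))
    (fun x y a => by rw [min_comm, Sym2.eq_swap]; exact J1 _ _ _ _ a) _ (fun x y => ?_)
    fun x x' => hu.trans (cW ▸ hω x x')).trans ?_
  · simp only [fi, J0]
    split_ifs with z
    · exact Or.inr ⟨rfl, Or.inl z⟩
    · rcases (P' _).two (ω s(x.1, y.1)) (ν (min x.1.1 y.1.1) (emb _ x.2) (emb _ y.2)) with e | e
      · exact Or.inr ⟨by rw [e, sub_zero], Or.inr (Or.inr e)⟩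
      · exact Or.inl (by rw [e, sub_self])
  have key : ∀ (a c d : Fin (r + 1)) (o : ∀ d, Ω d), min a c = d → ∑ x : V a, ∑ y : V c,
      ind (J0 d o (emb _ x) (emb _ y)) ≤
      u * (q ^ (a : ℕ) * q ^ (c : ℕ)) + (2 + D ^ r) * (q ^ (a : ℕ) + q ^ (c : ℕ)) := by
    intro a c d o hd
    have b := pair_sum (P' d) (by linarith [v2 d])
      (res_emb (s := s) (Fin.le_def.1 (hd ▸ min_le_left a c : d ≤ a)))
      (res_emb (s := s) (Fin.le_def.1 (hd ▸ min_le_right a c : d ≤ c))) (μ2 d) o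
    refine b.trans ?_
    rw [cV, cV, cV]
    have z1 : q ^ (a : ℕ) * q ^ (c : ℕ) / q ^ (d : ℕ) ≤ q ^ (a : ℕ) + q ^ (c : ℕ) := by
      rcases min_choice a c with e | e <;> rw [← hd, e]
      · rw [mul_div_cancel_left₀ _ (by positivity)]; exact le_add_of_nonneg_left (by positivity)
      · rw [mul_div_cancel_right₀ _ (by positivity)]; exact le_add_of_nonneg_right (by positivity)
    have z2 : (D : ℝ) ^ (d : ℕ) ≤ D ^ r := pow_le_pow_right₀ D1 (Nat.lt_succ_iff.1 d.2)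
    have z3 := mul_le_mul z2 z1 (by positivity) (by positivity)
    have z4 : q ^ (a : ℕ) * q ^ (c : ℕ) * (1 - v d) ≤
        q ^ (a : ℕ) * q ^ (c : ℕ) * (u + (D / q) ^ (d : ℕ)) := by
      gcongr; linarith [v1 d]
    have z5 : q ^ (a : ℕ) * q ^ (c : ℕ) * (u + (D / q) ^ (d : ℕ)) = u * (q ^ (a : ℕ) * q ^ (c : ℕ)) +
        D ^ (d : ℕ) * (q ^ (a : ℕ) * q ^ (c : ℕ) / q ^ (d : ℕ)) := by rw [div_pow]; ring
    linarith
  have n1 : ∑ t : Ty N, q ^ (t.1 : ℕ) = n := by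
    rw [Fintype.sum_sigma, ← hn]; simp [hqq]
  have n2 : (Fintype.card (Ty N) : ℝ) = ∑ c, (N c : ℝ) := by simp
  rw [Fintype.sum_sigma]
  refine (sum_le_sum (g := fun t : Ty N => ∑ l : Ty N, (u * (q ^ (t.1 : ℕ) * q ^ (l.1 : ℕ)) +
    (2 + D ^ r) * (q ^ (t.1 : ℕ) + q ^ (l.1 : ℕ)))) fun t _ => ?_).trans (le_of_eq ?_)
  · simp only [Fintype.sum_sigma (ι := Ty N)]
    rw [sum_comm]
    exact sum_le_sum fun l _ => key t.1 l.1 _ (ω s(t, l)) rfl
  · simp only [sum_add_distrib, ← mul_sum, ← sum_mul, n1, sum_const, card_univ, nsmul_eq_mul, n2]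
    ring

end Build

section Final

/-! Choice of parameters; upper and lower bound. -/

theorem digits (q r : ℕ) (hq : 0 < q) : ∀ x : ℕ, ∃ a : Fin (r + 1) → ℕ,
    ∑ c, a c * q ^ (c : ℕ) = x ∧ ∑ c, a c ≤ r * q + x / q ^ r := by
  induction r with
  | zero => exact fun x => ⟨fun _ => x, by simp, by simp⟩
  | succ r ih =>
    intro x
    obtain ⟨a, h1, h2⟩ := ih (x / q)
    refine ⟨Fin.cons (x % q) a, ?_, ?_⟩
    · rw [Fin.sum_univ_succ]
      simp only [Fin.cons_zero, Fin.cons_succ, Fin.val_zero, Fin.val_succ, pow_zero, mul_one,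
        pow_succ, ← mul_assoc, ← sum_mul, h1]
      exact Nat.mod_add_div' x q
    · rw [Fin.sum_univ_succ]
      simp only [Fin.cons_zero, Fin.cons_succ]
      rw [Nat.div_div_eq_div_mul, ← pow_succ'] at h2
      have := Nat.mod_lt x hq
      rw [add_mul]
      omega

theorem ghat_triv {n k : ℕ} (hk : k + 1 ≤ n) : 2 * (ghat n k : ℝ) ≤ n * (n - 1) := by
  obtain ⟨r, hr⟩ := Nat.exists_eq_add_of_le (show k ≤ n by omega)
  obtain ⟨H, -, a⟩ := ghat_attained hr (by omega)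
  rw [← Nat.cast_one (R := ℝ), ← Nat.cast_sub (by omega)]
  exact_mod_cast (by omega : 2 * ghat n k ≤ n * (n - 1))

theorem small {r n q M c : ℕ} (hq : 1 ≤ q) (hM : 1 ≤ M) (hn : n < (2 * q) ^ (r + 6))
    (hc : c = 2 + 24 * (r + 6) * M ^ 4) :
    (n : ℝ) * (n * (r + 1)) * Real.exp (1 - (((c * q ^ 5 : ℕ) : ℝ) - 2) /
      (4 * (((M : ℝ) * q) ^ 2) ^ 2)) < 1 := by
  have q1 : (1 : ℝ) ≤ q := by exact_mod_cast hq
  have M1 : (1 : ℝ) ≤ M := by exact_mod_cast hM
  have r0 : (0 : ℝ) ≤ r := Nat.cast_nonneg r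
  have a1 : (n : ℝ) < Real.exp ((r + 6) * (2 * q)) := by
    have : (n : ℝ) < (2 * q) ^ (r + 6) := by exact_mod_cast hn
    refine this.trans_le ?_
    rw [show (r : ℝ) + 6 = (r + 6 : ℕ) by push_cast; rfl, Real.exp_nat_mul]
    exact pow_le_pow_left₀ (by linarith) (by linarith [Real.add_one_le_exp (2 * (q : ℝ))]) _
  have a2 : (r : ℝ) + 1 ≤ Real.exp ((r + 6) * q) :=
    (Real.add_one_le_exp _).trans (Real.exp_le_exp.2 (by linarith [mul_le_mul_of_nonneg_left q1 r0]))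
  have a3 : 6 * ((r + 6) * q) ≤ (((c * q ^ 5 : ℕ) : ℝ) - 2) / (4 * (((M : ℝ) * q) ^ 2) ^ 2) := by
    rw [le_div_iff₀ (by positivity), hc]
    push_cast
    linarith [one_le_pow₀ (n := 5) q1]
  have n0 : (0 : ℝ) ≤ n := Nat.cast_nonneg n
  have a4 : (n : ℝ) * (n * (r + 1)) < Real.exp (5 * ((r + 6) * q)) := by
    rw [show 5 * (((r : ℝ) + 6) * q) = (r + 6) * (2 * q) + ((r + 6) * (2 * q) + (r + 6) * q) by ring,
      Real.exp_add, Real.exp_add]
    exact mul_lt_mul_of_lt_of_le_of_nonneg_of_pos a1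
      (mul_le_mul a1.le a2 (by linarith) (Real.exp_pos _).le) n0 (by positivity)
  refine (mul_lt_mul_of_pos_right a4 (Real.exp_pos _)).trans_le ?_
  rw [← Real.exp_add]
  exact Real.exp_le_one_iff.2 (by linarith [mul_le_mul_of_nonneg_left q1 r0])

theorem size {r D M c Q : ℕ} (hD : D = 60 * r + 1) (hM : M = (64 * D ^ 2) ^ r)
    (hc : c = 2 + 24 * (r + 6) * M ^ 4) (hQ : Q = c * (r + 1) + 2048 * D ^ 2) :
    (2 * Q) ^ (r + 6) ≤ (r + 6) ^ (37 * (r + 6) ^ 2) ∧ 2 + D ^ r ≤ Q ∧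
      (r + 1) * c + r + 2 ^ (r + 6) ≤ 3 * Q := by
  obtain ⟨e, he⟩ : ∃ e, e = r + 6 := ⟨_, rfl⟩
  have e6 : 6 ≤ e := by omega
  have D1 : 1 ≤ D := by omega
  have a1 : 64 * D ^ 2 ≤ e ^ 9 := by
    calc 64 * D ^ 2 ≤ 64 * (60 * e) ^ 2 := by gcongr; omega
      _ = 230400 * e ^ 2 := by ring
      _ ≤ 6 ^ 7 * e ^ 2 := by gcongr; norm_num
      _ ≤ e ^ 7 * e ^ 2 := by gcongr
      _ = e ^ 9 := by ring
  have a2 : M ^ 4 ≤ e ^ (36 * e) := by
    calc M ^ 4 ≤ ((e ^ 9) ^ r) ^ 4 := by rw [hM]; gcongr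
      _ = e ^ (36 * r) := by rw [← pow_mul, ← pow_mul]; congr 1; ring
      _ ≤ e ^ (36 * e) := Nat.pow_le_pow_right (by omega) (by omega)
  have a3 : e ^ 9 ≤ e ^ (36 * e) := Nat.pow_le_pow_right (by omega) (by omega)
  have a4 : 1 ≤ e ^ (36 * e) := Nat.one_le_pow _ _ (by omega)
  have a5 : 2 * Q ≤ e ^ (37 * e) := by
    have b1 : c * (r + 1) ≤ (2 * e ^ (36 * e) + 24 * e * e ^ (36 * e)) * e := by
      rw [hc, ← he]
      gcongr <;> omega
    have b2 : 6 ^ 4 * e ^ 2 ≤ e ^ e :=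
      le_trans (by gcongr) ((pow_add e 4 2).symm.le.trans (Nat.pow_le_pow_right (by omega) e6))
    calc 2 * Q ≤ (4 * e + 48 * e ^ 2 + 64) * e ^ (36 * e) := by rw [hQ]; linarith only [b1, a1, a3]
      _ ≤ e ^ e * e ^ (36 * e) := by gcongr; nlinarith only [b2, e6]
      _ = e ^ (37 * e) := by rw [← pow_add]; congr 1; ring
  have M1 : D ^ r ≤ M := hM ▸ Nat.pow_le_pow_left (by nlinarith only [D1]) r
  have M2 : 2 ^ r ≤ M := hM ▸ Nat.pow_le_pow_left (by nlinarith only [D1]) r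
  have M3 : M ≤ M ^ 4 := Nat.le_self_pow (by norm_num) M
  have M4 : 2 + 144 * M ≤ c := by rw [hc]; linarith only [M3, Nat.zero_le (r * M ^ 4)]
  have M5 : c + r ≤ c * (r + 1) := by
    linarith only [Nat.mul_le_mul_right r (show 1 ≤ c by omega)]
  refine ⟨?_, by omega, ?_⟩
  · rw [← he]
    calc (2 * Q) ^ e ≤ (e ^ (37 * e)) ^ e := by gcongr
      _ = e ^ (37 * e ^ 2) := by rw [← pow_mul]; congr 1; ring
  · rw [pow_add, mul_comm (r + 1)]
    omega

theorem core {r n k : ℕ} (hk : k + 1 ≤ n) (h : (n : ℝ) ≤ (3 + √5) / 2 * k)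
    (hn : (r + 6) ^ (37 * (r + 6) ^ 2) ≤ n) :
    2 * (ghat n k : ℝ) ≤ n * √(k * n) + 8 * (n * (n : ℝ) ^ (8 / (r + 6) : ℝ)) := by
  obtain ⟨D, hD⟩ : ∃ D : ℕ, D = 60 * r + 1 := ⟨_, rfl⟩
  obtain ⟨M, hM⟩ : ∃ M : ℕ, M = (64 * D ^ 2) ^ r := ⟨_, rfl⟩
  obtain ⟨c, hc⟩ : ∃ c : ℕ, c = 2 + 24 * (r + 6) * M ^ 4 := ⟨_, rfl⟩
  obtain ⟨Q, hQ⟩ : ∃ Q : ℕ, Q = c * (r + 1) + 2048 * D ^ 2 := ⟨_, rfl⟩
  obtain ⟨c', hc'⟩ : ∃ c' : ℕ, c' = (r + 1) * c + r + 2 ^ (r + 6) := ⟨_, rfl⟩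
  obtain ⟨Q1, Q2, Q3⟩ := size hD hM hc hQ
  replace Q1 := Q1.trans hn
  clear hn
  have k0 : (0 : ℝ) ≤ k := Nat.cast_nonneg k
  have n1 : (1 : ℝ) ≤ n := by exact_mod_cast (by omega : 1 ≤ n)
  have kn : (k : ℝ) + 1 ≤ n := by exact_mod_cast hk
  have y : √(5 : ℝ) ≤ 224 / 100 := Real.sqrt_le_iff.2 (by norm_num)
  have h4 : (n : ℝ) ≤ 262 / 100 * k := by linarith [mul_le_mul_of_nonneg_right y k0]
  have s0 := Real.sqrt_nonneg (k * n)
  have s1 := Real.sq_sqrt (mul_nonneg k0 (zero_le_one.trans n1))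
  set z := √((k : ℝ) * n)
  have p1 : 1 ≤ (n : ℝ) ^ (8 / (r + 6) : ℝ) := Real.one_le_rpow n1 (by positivity)
  set p := (n : ℝ) ^ (8 / (r + 6) : ℝ) with hp
  have np : (n : ℝ) ≤ n * p := le_mul_of_one_le_right (by linarith) p1
  have t := ghat_triv hk
  by_cases e : n = k + 1
  · have e' : (n : ℝ) = k + 1 := by exact_mod_cast e
    have b : (n : ℝ) - 1 ≤ z := abs_le_of_sq_le_sq' (by rw [s1, e']; linarith only [k0]) s0 |>.2
    linarith [mul_le_mul_of_nonneg_left b (zero_le_one.trans n1)]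
  have kn2 : (k : ℝ) + 2 ≤ n := by exact_mod_cast (by omega : k + 2 ≤ n)
  obtain ⟨s, hs⟩ : ∃ s, s = Nat.log (2 ^ (r + 6)) n := ⟨_, rfl⟩
  obtain ⟨q, hq⟩ : ∃ q : ℕ, q = 2 ^ s := ⟨_, rfl⟩
  have q0 : 0 < q := hq ▸ Nat.two_pow_pos s
  have l1 : q ^ (r + 6) ≤ n := by
    rw [hq, ← pow_mul, mul_comm, pow_mul, hs]
    exact Nat.pow_log_le_self _ (by omega)
  have l2 : n < (2 * q) ^ (r + 6) := by
    rw [hq, ← pow_succ', ← pow_mul, mul_comm, pow_mul, hs]
    exact Nat.lt_pow_succ_log_self (Nat.one_lt_two_pow (by omega)) _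
  have big : Q ≤ q := by
    have := lt_of_pow_lt_pow_left₀ _ (Nat.zero_le _) (Q1.trans_lt l2)
    omega
  have cq : Fintype.card (KK s) = q := by simp [hq]
  have g1 : ∑ d : Fin (r + 1), c * q ^ 5 * q ^ (d : ℕ) ≤ n := by
    refine le_trans (sum_le_card_nsmul _ _ (c * q ^ 5 * q ^ r) fun d _ =>
      Nat.mul_le_mul_left _ (Nat.pow_le_pow_right q0 (Nat.lt_succ_iff.1 d.2))) (le_trans ?_ l1)
    rw [card_univ, Fintype.card_fin, smul_eq_mul]
    calc (r + 1) * (c * q ^ 5 * q ^ r) = c * (r + 1) * q ^ (r + 5) := by ring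
      _ ≤ q * q ^ (r + 5) := Nat.mul_le_mul_right _ (by omega)
      _ = q ^ (r + 6) := by ring
  obtain ⟨x, hx⟩ := Nat.exists_eq_add_of_le g1
  obtain ⟨a, a1, a2⟩ := digits q r q0 x
  have u0 := Real.sqrt_nonneg ((k + 2) / n)
  have u1 := Real.sq_sqrt (show (0 : ℝ) ≤ (k + 2) / n by positivity)
  set u := √(((k : ℝ) + 2) / n)
  have u2 : u ^ 2 * n = k + 2 := by rw [u1, div_mul_cancel₀ _ (by linarith)]
  have u3 : u ≤ 1 := pow_le_one_iff_of_nonneg u0 two_ne_zero |>.1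
    (le_of_mul_le_mul_right (by linarith) (show (0 : ℝ) < n by linarith))
  have u4 : 61 / 100 ≤ u := abs_le_of_sq_le_sq'
    (le_of_mul_le_mul_right (by linarith) (show (0 : ℝ) < n by linarith)) u0 |>.2
  have b : (n : ℝ) ≤ 2 * z := abs_le_of_sq_le_sq' (by
    linarith only [s1, mul_le_mul_of_nonneg_right h4 (zero_le_one.trans n1),
      mul_nonneg k0 (zero_le_one.trans n1)]) (by linarith only [s0]) |>.2
  have d : u * n ≤ z + 2 := abs_le_of_sq_le_sq' (by
    linarith only [s1, b, congrArg (· * (n : ℝ)) u2]) (by linarith only [s0]) |>.2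
  have M1 : 1 ≤ M := hM ▸ Nat.one_le_pow _ _ (by rw [hD]; positivity)
  have main := design (s := s) (r := r) (D := D) (by omega) (by omega) (by omega)
    (fun d => c * q ^ 5 + a d) (n := n) (k := k)
    (by simp only [cq, add_mul, sum_add_distrib, a1]; exact hx.symm) (by omega) u4 u3 u2.ge
    (N0 := ((c * q ^ 5 : ℕ) : ℝ)) (fun d => by exact_mod_cast Nat.le_add_right _ _)
    (by
      have := small q0 M1 l2 hc
      rw [hM] at this
      rw [cq]
      exact_mod_cast this)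
  have T1 : ∑ d : Fin (r + 1), (c * q ^ 5 + a d) ≤ c' * q ^ 6 := by
    have e1 : x / q ^ r ≤ 2 ^ (r + 6) * q ^ 6 :=
      Nat.div_le_of_le_mul (by
        calc x ≤ (2 * q) ^ (r + 6) := by omega
          _ = q ^ r * (2 ^ (r + 6) * q ^ 6) := by ring)
    have e2 : q ^ 5 ≤ q ^ 6 := Nat.pow_le_pow_right q0 (by norm_num)
    have e3 : q ≤ q ^ 6 := Nat.le_self_pow (by norm_num) q
    have e4 : c' * q ^ 6 = (r + 1) * (c * q ^ 6) + r * q ^ 6 + 2 ^ (r + 6) * q ^ 6 := by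
      rw [hc']; ring
    rw [sum_add_distrib, sum_const, card_univ, Fintype.card_fin, smul_eq_mul, e4]
    have := Nat.mul_le_mul_left (r + 1) (Nat.mul_le_mul_left c e2)
    have := Nat.mul_le_mul_left r e3
    omega
  have T2 : (q : ℝ) ^ 8 ≤ p := by
    have e1 : ((q : ℝ) ^ (r + 6)) ^ (8 / (r + 6) : ℝ) = q ^ 8 := by
      rw [← Real.rpow_natCast, ← Real.rpow_mul (Nat.cast_nonneg _), ← Real.rpow_natCast]
      congr 1
      push_cast
      field_simp
    rw [← e1]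
    exact Real.rpow_le_rpow (by positivity) (by exact_mod_cast l1) (by positivity)
  have T3 : (2 + D ^ r) * ∑ d : Fin (r + 1), (c * q ^ 5 + a d) ≤ 3 * q ^ 8 := by
    calc _ ≤ q * (3 * q * q ^ 6) :=
          Nat.mul_le_mul (by omega) (T1.trans (Nat.mul_le_mul_right _ (by omega)))
      _ = 3 * q ^ 8 := by ring
  have T4 : (2 + (D : ℝ) ^ r) * ∑ d : Fin (r + 1), ((c * q ^ 5 + a d : ℕ) : ℝ) ≤ 3 * p :=
    le_trans (by exact_mod_cast T3) (mul_le_mul_of_nonneg_left T2 (by norm_num))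
  linarith [mul_le_mul_of_nonneg_right d (zero_le_one.trans n1),
    mul_le_mul_of_nonneg_left T4 (zero_le_one.trans n1)]

theorem upper {n k : ℕ} (hk : k + 1 ≤ n) (h : (n : ℝ) ≤ (3 + √5) / 2 * k) :
    2 * (ghat n k : ℝ) ≤ n * √(k * n) +
      8 * (n * Real.exp (104 * √(Real.log n * Real.log (Real.log n)))) := by
  have n1 : (1 : ℝ) ≤ n := by exact_mod_cast (by omega : 1 ≤ n)
  have t := ghat_triv hk
  have z0 : 0 ≤ (n : ℝ) * √(k * n) := by positivity
  set L := Real.log n with hL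
  set l := Real.log L with hl
  have w0 := Real.sqrt_nonneg (L * l)
  have triv : (n : ℝ) ≤ 8 * Real.exp (104 * √(L * l)) →
      2 * (ghat n k : ℝ) ≤ n * √(k * n) + 8 * (n * Real.exp (104 * √(L * l))) := fun a => by
    linarith [mul_le_mul_of_nonneg_left a (zero_le_one.trans n1)]
  by_cases n8 : (n : ℝ) ≤ 8
  · exact triv (by linarith [Real.one_le_exp (show 0 ≤ 104 * √(L * l) by linarith)])
  have L1 : 1 < L := by
    rw [hL, Real.lt_log_iff_exp_lt (by linarith)]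
    linarith [Real.exp_one_lt_d9]
  have l0 : 0 < l := Real.log_pos L1
  have w1 := Real.sq_sqrt (show 0 ≤ L * l by positivity)
  set w := √(L * l)
  have w2 : 0 < w := by
    rcases w0.eq_or_lt with e | e
    · rw [← e] at w1; linarith [mul_pos (zero_lt_one.trans L1) l0]
    · exact e
  have en : Real.exp L = n := Real.exp_log (by linarith)
  by_cases c : L ≤ 49 * w
  · refine triv ?_
    have := Real.exp_le_exp.2 (show L ≤ 104 * w by linarith)
    linarith [Real.exp_pos (104 * w)]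
  have x7 : 7 ≤ L / (7 * w) := by rw [le_div_iff₀ (by positivity)]; linarith
  have f1 := Nat.floor_le (show 0 ≤ L / (7 * w) by linarith)
  have f2 := Nat.lt_floor_add_one (L / (7 * w))
  have f3 : 6 ≤ ⌊L / (7 * w)⌋₊ := Nat.le_floor (by push_cast; linarith)
  obtain ⟨r, hr⟩ := Nat.exists_eq_add_of_le' f3
  rw [hr] at f1 f2
  push_cast at f1 f2
  have r0 : (0 : ℝ) ≤ r := Nat.cast_nonneg r
  have f4 : ((r : ℝ) + 6) * (7 * w) ≤ L := (le_div_iff₀ (by positivity)).1 f1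
  have f5 : L < ((r : ℝ) + 6 + 1) * (7 * w) := (div_lt_iff₀ (by positivity)).1 f2
  have f6 : 49 * ((r : ℝ) + 6) ^ 2 * l ≤ L := by
    have := pow_le_pow_left₀ (by positivity) f4 2
    refine le_of_mul_le_mul_right ?_ (zero_lt_one.trans L1)
    rw [mul_pow, mul_pow, w1] at this
    linarith only [this]
  have f7 : Real.log (r + 6) ≤ l := by
    refine Real.log_le_log (by linarith) ?_
    by_cases c1 : 1 ≤ 7 * w
    · exact (le_mul_of_one_le_right (by linarith) c1).trans f4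
    · have : L * l < 1 / 49 := by nlinarith only [w1, c1, w2]
      have h8 : 2 ≤ L := by
        rw [hL, Real.le_log_iff_exp_le (by linarith), show (2 : ℝ) = 1 + 1 by norm_num,
          Real.exp_add]
        nlinarith only [n8, Real.exp_one_lt_d9, Real.exp_pos 1]
      have h9 : Real.log 2 ≤ l := Real.log_le_log two_pos h8
      linarith [Real.log_two_gt_d9, mul_le_mul_of_nonneg_right h8 l0.le]
  have hn : (r + 6) ^ (37 * (r + 6) ^ 2) ≤ n := by
    have : ((r : ℝ) + 6) ^ (37 * (r + 6) ^ 2) ≤ n := by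
      rw [← en, ← Real.exp_log (show (0 : ℝ) < r + 6 by linarith), ← Real.exp_nat_mul]
      refine Real.exp_le_exp.2 ?_
      push_cast
      linarith [mul_le_mul_of_nonneg_left f7 (show 0 ≤ 37 * ((r : ℝ) + 6) ^ 2 by positivity),
        mul_pos (show 0 < ((r : ℝ) + 6) ^ 2 by positivity) l0]
    exact_mod_cast this
  have p : (n : ℝ) ^ (8 / (r + 6) : ℝ) ≤ Real.exp (104 * w) := by
    rw [Real.rpow_def_of_pos (by linarith), ← hL]
    refine Real.exp_le_exp.2 ?_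
    rw [← mul_div_assoc, div_le_iff₀ (by linarith)]
    linarith [mul_nonneg r0 w0]
  linarith [core hk h hn, mul_le_mul_of_nonneg_left p (zero_le_one.trans n1)]

/-- Path counting at a vertex of least degree (proof from the file `h58/Final`). -/
theorem lower {n k : ℕ} (hk : k + 1 ≤ n) (h : (n : ℝ) ≤ (3 + √5) / 2 * k) :
    n * (√(k * n) - 2) ≤ 2 * (ghat n k : ℝ) := by
  have n0 : (0 : ℝ) < n := by exact_mod_cast (by omega : 0 < n)
  have k0 : (0 : ℝ) ≤ k := Nat.cast_nonneg k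
  have kn : (k : ℝ) ≤ n := by exact_mod_cast (by omega : k ≤ n)
  have s0 := Real.sqrt_nonneg (k * n)
  have s1 := Real.sq_sqrt (mul_nonneg k0 n0.le)
  set s := √((k : ℝ) * n)
  have y1 := Real.sq_sqrt (show (0 : ℝ) ≤ 5 by norm_num)
  have y0 := Real.sqrt_nonneg 5
  set y := √(5 : ℝ)
  have y2 : 1 ≤ y := by nlinarith only [y0, y1]
  have y3 : y ≤ 5 := by nlinarith only [y0, y1]
  have p : ((n : ℝ) - k) ^ 2 ≤ s ^ 2 := by
    have a : 0 ≤ (n : ℝ) - (3 - y) / 2 * k := by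
      linarith [mul_le_mul_of_nonneg_right y2 k0]
    have b := mul_nonneg (sub_nonneg.2 h) a
    have c : y ^ 2 * k ^ 2 = 5 * k ^ 2 := by rw [y1]
    linarith
  have p1 : (n : ℝ) - k ≤ s := (abs_le_of_sq_le_sq' p s0).2
  by_cases c : k ≤ 1
  · have k1 : (k : ℝ) ≤ 1 := by exact_mod_cast c
    have a : s ≤ 2 := (abs_le_of_sq_le_sq' (by nlinarith) zero_le_two).2
    exact (mul_nonpos_of_nonneg_of_nonpos n0.le (by linarith)).trans (by positivity)
  obtain ⟨r, hr⟩ := Nat.exists_eq_add_of_le (show k ≤ n by omega)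
  obtain ⟨H, h1, a⟩ := ghat_attained hr (by omega)
  obtain ⟨v, hv⟩ := exists_maxdeg H (by simp; omega)
  have d1 := deg_lt h1 (by simp; omega) v
  have d2 := (count h1 rfl hv).1
  have d3 := tot_le hv
  rw [Fintype.card_fin] at d2 d3
  generalize (nb H v).card = D at *
  have n1 : ((n - 1 : ℕ) : ℝ) = n - 1 := by rw [Nat.cast_sub (by omega), Nat.cast_one]
  have a' := congrArg (Nat.cast (R := ℝ)) a
  have d1' : (D : ℝ) + 1 ≤ r := by exact_mod_cast d1
  have d2' := (Nat.cast_le (α := ℝ)).2 d2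
  have d3' := (Nat.cast_le (α := ℝ)).2 d3
  have hr' := congrArg (Nat.cast (R := ℝ)) hr
  simp only [Nat.cast_add, Nat.cast_mul, n1, Nat.cast_pow, Nat.cast_one, Nat.cast_ofNat]
    at a' d2' d3' hr'
  by_cases c2 : s ≤ n - 1 - D
  · linarith [mul_le_mul_of_nonneg_left c2 n0.le]
  · have e : (r : ℝ) = n - k := by linarith
    rw [e] at d2'
    linarith [mul_nonneg (show 0 ≤ s - (n - 1 - D) by linarith)
      (show 0 ≤ s + (n - 1 - D) - n by linarith)]

end Final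

end Pool.Agent.MP_1dbd31_co.h27
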